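import Pool.Agent.Work.MP_db9399_da_helper55.DEC2a

/-!
# MP_db9399, DENSE-ALL, block DEC2: the pieces from the positions (helper55)
-/

set_option autoImplicit false

namespace Pool.Agent.Work.MP_db9399_da.helper55

open Finset Classical
open Pool.Agent.Work.MP_db9399_all (nb)

universe u

namespace DEC2Aux

open DEC1Aux (mem_nb)

section
variable {V : Type u} [Fintype V] {p M : ℕ}

/-- index of the piece of a position -/
def rep (mt : Fin p → Fin p) (hM : p ≤ M) (a : Fin p) : Fin M := Fin.castLE hM (min a (mt a))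

/-- types of the pieces -/
noncomputable def tyD (g ζ : ℝ) (G : SimpleGraph V) (d : ℕ) (po : V → Fin p) (mt : Fin p → Fin p)
    (n : Fin M) : Ty :=
  if h : (n : ℕ) < p then
    (if mt ⟨n, h⟩ < ⟨n, h⟩ then Ty.E else
      if mt ⟨n, h⟩ = ⟨n, h⟩ then
        (if (1 + g) * d < ((pos po ⟨n, h⟩ \ Hs ζ G d po mt).card : ℝ) then Ty.N else Ty.K)
      else Ty.B)
  else Ty.E

/-- the pieces -/
noncomputable def mkP (g ζ : ℝ) (G : SimpleGraph V) (d : ℕ) (po : V → Fin p) (mt : Fin p → Fin p)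
    (X : Fin p → Finset V) (hM : p ≤ M) : Pcs V M where
  V0 := V0s ζ G d po mt X
  pc v := rep mt hM (po v)
  ty := tyD g ζ G d po mt
  rg z := if z ∈ X (po z) ∧ mt (po z) ≠ po z then
    some (rep mt hM (po z), decide (po z < mt (po z))) else none
  sd v := decide (mt (po v) < po v)
  pt _ := false
  th _ := 0

section rep
variable {mt : Fin p → Fin p} (inv : ∀ a, mt (mt a) = a) (hM : p ≤ M)
include inv

theorem rep_iff (a b : Fin p) : rep mt hM a = rep mt hM b ↔ b = a ∨ b = mt a := by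
  unfold rep
  rw [(Fin.castLE_injective hM).eq_iff]
  constructor
  · intro h
    rcases min_choice a (mt a) with h1 | h1 <;> rcases min_choice b (mt b) with h2 | h2
    · rw [h1, h2] at h
      exact Or.inl h.symm
    · rw [h1, h2] at h
      right
      rw [h, inv]
    · rw [h1, h2] at h
      exact Or.inr h.symm
    · rw [h1, h2] at h
      left
      rw [← inv b, ← h, inv]
  · rintro (h | h)
    · rw [h]
    · rw [h, inv, min_comm]

theorem rep_mt (a : Fin p) : rep mt hM (mt a) = rep mt hM a := by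
  rw [rep_iff inv]
  right
  rw [inv]

theorem exists_min (b : Fin p) : ∃ a, a ≤ mt a ∧ rep mt hM a = rep mt hM b ∧
    (b = a ∨ b = mt a) := by
  by_cases h : b ≤ mt b
  · exact ⟨b, h, rfl, Or.inl rfl⟩
  · refine ⟨mt b, ?_, rep_mt inv hM b, Or.inr (inv b).symm⟩
    rw [inv]
    exact (not_le.1 h).le

end rep

section ty
variable {g ζ : ℝ} {G : SimpleGraph V} {d : ℕ} {po : V → Fin p} {mt : Fin p → Fin p}

theorem ty_of (hM : p ≤ M) (a : Fin p) (h : a ≤ mt a) :
    tyD g ζ G d po mt (rep mt hM a) =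
      if mt a = a then
        (if (1 + g) * d < ((pos po a \ Hs ζ G d po mt).card : ℝ) then Ty.N else Ty.K)
      else Ty.B := by
  have h1 : ((rep mt hM a : Fin M) : ℕ) = a := by
    unfold rep
    rw [min_eq_left h]
    rfl
  have h2 : ((rep mt hM a : Fin M) : ℕ) < p := by
    rw [h1]
    exact a.2
  have h3 : (⟨((rep mt hM a : Fin M) : ℕ), h2⟩ : Fin p) = a := Fin.ext h1
  unfold tyD
  rw [dif_pos h2, h3, if_neg (not_lt.2 h)]

theorem ty_ex (hM : p ≤ M) (n : Fin M) (h : tyD g ζ G d po mt n ≠ Ty.E) :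
    ∃ a, a ≤ mt a ∧ rep mt hM a = n := by
  unfold tyD at h
  by_cases h1 : (n : ℕ) < p
  · rw [dif_pos h1] at h
    by_cases h2 : mt ⟨n, h1⟩ < ⟨n, h1⟩
    · rw [if_pos h2] at h
      exact absurd rfl h
    · refine ⟨⟨n, h1⟩, not_lt.1 h2, ?_⟩
      unfold rep
      rw [min_eq_left (not_lt.1 h2)]
      rfl
  · rw [dif_neg h1] at h
    exact absurd rfl h

theorem ty_B (inv : ∀ a, mt (mt a) = a) (hM : p ≤ M) (b : Fin p) :
    tyD g ζ G d po mt (rep mt hM b) = Ty.B ↔ mt b ≠ b := by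
  obtain ⟨a, ha, har, hab⟩ := exists_min inv hM b
  rw [← har, ty_of hM a ha]
  have h1 : mt a = a ↔ mt b = b := by
    rcases hab with h | h
    · rw [h]
    · rw [h, inv]
      exact eq_comm
  constructor
  · intro h h2
    rw [if_pos (h1.2 h2)] at h
    split_ifs at h
  · intro h
    rw [if_neg (fun h' => h (h1.1 h'))]

theorem ty_E (inv : ∀ a, mt (mt a) = a) (hM : p ≤ M) (b : Fin p) :
    tyD g ζ G d po mt (rep mt hM b) ≠ Ty.E := by
  obtain ⟨a, ha, har, _⟩ := exists_min inv hM b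
  rw [← har, ty_of hM a ha]
  split_ifs <;> simp

/-- a piece of type K -/
theorem ty_K (hM : p ≤ M) (n : Fin M) (h : tyD g ζ G d po mt n = Ty.K) :
    ∃ a, mt a = a ∧ rep mt hM a = n ∧
      ¬ (1 + g) * d < ((pos po a \ Hs ζ G d po mt).card : ℝ) := by
  obtain ⟨a, ha, hn⟩ := ty_ex hM n (by rw [h]; simp)
  rw [← hn, ty_of hM a ha] at h
  by_cases h1 : mt a = a
  · rw [if_pos h1] at h
    by_cases h2 : (1 + g) * d < ((pos po a \ Hs ζ G d po mt).card : ℝ)
    · rw [if_pos h2] at h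
      exact absurd h (by simp)
    · exact ⟨a, h1, hn, h2⟩
  · rw [if_neg h1] at h
    exact absurd h (by simp)

/-- a piece of type N -/
theorem ty_N (hM : p ≤ M) (n : Fin M) (h : tyD g ζ G d po mt n = Ty.N) :
    ∃ a, mt a = a ∧ rep mt hM a = n ∧
      (1 + g) * d < ((pos po a \ Hs ζ G d po mt).card : ℝ) := by
  obtain ⟨a, ha, hn⟩ := ty_ex hM n (by rw [h]; simp)
  rw [← hn, ty_of hM a ha] at h
  by_cases h1 : mt a = a
  · rw [if_pos h1] at h
    by_cases h2 : (1 + g) * d < ((pos po a \ Hs ζ G d po mt).card : ℝ)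
    · exact ⟨a, h1, hn, h2⟩
    · rw [if_neg h2] at h
      exact absurd h (by simp)
  · rw [if_neg h1] at h
    exact absurd h (by simp)

/-- a piece of type B -/
theorem ty_B' (hM : p ≤ M) (n : Fin M) (h : tyD g ζ G d po mt n = Ty.B) :
    ∃ a, a < mt a ∧ rep mt hM a = n := by
  obtain ⟨a, ha, hn⟩ := ty_ex hM n (by rw [h]; simp)
  rw [← hn, ty_of hM a ha] at h
  by_cases h1 : mt a = a
  · rw [if_pos h1] at h
    by_cases h2 : (1 + g) * d < ((pos po a \ Hs ζ G d po mt).card : ℝ)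
    · rw [if_pos h2] at h
      exact absurd h (by simp)
    · rw [if_neg h2] at h
      exact absurd h (by simp)
  · exact ⟨a, lt_of_le_of_ne ha (fun h' => h1 h'.symm), hn⟩

end ty

section main
variable {C g γ ζ κ h0 : ℝ} {G : SimpleGraph V} {d : ℕ} {po : V → Fin p} {mt : Fin p → Fin p}
variable {X : Fin p → Finset V} (hM : p ≤ M)

theorem bulk_iff (inv : ∀ a, mt (mt a) = a) (v w : V) :
    (bulk G (mkP g ζ G d po mt X hM)).Adj v w ↔
      G.Adj v w ∧ v ∉ V0s ζ G d po mt X ∧ w ∉ V0s ζ G d po mt X ∧ po w = mt (po v) := by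
  constructor
  · rintro ⟨h1, h2, h3, h4, h5⟩
    refine ⟨h1, h2, h3, ?_⟩
    rcases (rep_iff inv hM (po v) (po w)).1 h4 with h6 | h6
    · by_cases h7 : mt (po v) = po v
      · rw [h6, h7]
      · exfalso
        apply h5 ((ty_B inv hM (po v)).2 h7)
        show decide (mt (po v) < po v) = decide (mt (po w) < po w)
        rw [h6]
    · exact h6
  · rintro ⟨h1, h2, h3, h4⟩
    refine ⟨h1, h2, h3, (rep_iff inv hM (po v) (po w)).2 (Or.inr h4), ?_⟩
    intro h5
    have h6 : mt (po v) ≠ po v := (ty_B inv hM (po v)).1 h5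
    show decide (mt (po v) < po v) ≠ decide (mt (po w) < po w)
    rw [h4, inv]
    rcases lt_or_gt_of_ne h6 with h7 | h7
    · rw [decide_eq_true h7, decide_eq_false (not_lt.2 h7.le)]
      simp
    · rw [decide_eq_false (not_lt.2 h7.le), decide_eq_true h7]
      simp

/-- bulk neighbours -/
theorem mem_N (inv : ∀ a, mt (mt a) = a) (v w : V) :
    w ∈ nb (bulk G (mkP g ζ G d po mt X hM)) v ↔
      G.Adj v w ∧ v ∉ V0s ζ G d po mt X ∧ w ∉ V0s ζ G d po mt X ∧ po w = mt (po v) := by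
  rw [mem_nb, bulk_iff hM inv]

theorem mem_pVr (inv : ∀ a, mt (mt a) = a) (a : Fin p) (v : V) :
    v ∈ pV (mkP g ζ G d po mt X hM) (rep mt hM a) ↔
      v ∉ V0s ζ G d po mt X ∧ (po v = a ∨ po v = mt a) := by
  unfold pV
  rw [mem_filter]
  constructor
  · rintro ⟨_, h1, h2⟩
    exact ⟨h1, (rep_iff inv hM a (po v)).1 h2.symm⟩
  · rintro ⟨h1, h2⟩
    exact ⟨mem_univ _, h1, ((rep_iff inv hM a (po v)).2 h2).symm⟩

theorem mem_sVr (inv : ∀ a, mt (mt a) = a) (a : Fin p) (β : Bool) (v : V) :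
    v ∈ sV (mkP g ζ G d po mt X hM) (rep mt hM a) β ↔
      v ∉ V0s ζ G d po mt X ∧ (po v = a ∨ po v = mt a) ∧ decide (mt (po v) < po v) = β := by
  unfold sV
  rw [mem_filter]
  constructor
  · rintro ⟨_, h1, h2, h3⟩
    exact ⟨h1, (rep_iff inv hM a (po v)).1 h2.symm, h3⟩
  · rintro ⟨h1, h2, h3⟩
    exact ⟨mem_univ _, h1, ((rep_iff inv hM a (po v)).2 h2).symm, h3⟩

theorem pV_one (inv : ∀ a, mt (mt a) = a) (a : Fin p) (ha : mt a = a) :
    pV (mkP g ζ G d po mt X hM) (rep mt hM a) = pos po a \ V0s ζ G d po mt X := by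
  ext v
  rw [mem_pVr hM inv, mem_sdiff, mem_pos, ha, or_self]
  exact and_comm

theorem sV_two (inv : ∀ a, mt (mt a) = a) (a : Fin p) (ha : a < mt a) (β : Bool) :
    sV (mkP g ζ G d po mt X hM) (rep mt hM a) β =
      pos po (if β = true then mt a else a) \ V0s ζ G d po mt X := by
  ext v
  rw [mem_sVr hM inv, mem_sdiff, mem_pos]
  constructor
  · rintro ⟨h1, h2, h3⟩
    refine ⟨?_, h1⟩
    rcases h2 with h2 | h2
    · rw [h2, decide_eq_false (not_lt.2 ha.le)] at h3
      rw [← h3, h2]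
      simp
    · rw [h2, inv, decide_eq_true ha] at h3
      rw [← h3, h2]
      simp
  · rintro ⟨h1, h2⟩
    refine ⟨h2, ?_⟩
    rcases β with _ | _
    · simp only [Bool.false_eq_true, if_false] at h1
      exact ⟨Or.inl h1, by rw [h1, decide_eq_false (not_lt.2 ha.le)]⟩
    · simp only [if_true] at h1
      exact ⟨Or.inr h1, by rw [h1, inv, decide_eq_true ha]⟩

theorem card_Ts (P : Pcs V M) (n : Fin M) : Fintype.card (Ts P n) = (pV P n).card := by
  apply Fintype.card_of_subtype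
  intro v
  simp [pV]

/-- few neighbours in a position -/
theorem hub0 (c : Ctx C g γ ζ κ h0 G d po mt) (z : V) (b : Fin p)
    (hb : z ∈ Hs ζ G d po mt ∨ b ≠ mt (po z)) :
    ((nb G z ∩ pos po b).card : ℝ) ≤ (1 - ζ / 2) * d := by
  by_cases h1 : z ∈ Hs ζ G d po mt
  · rw [mem_Hs] at h1
    have h2 := c.mov z b
    have h3 : ((nb G z ∩ pos po b).card : ℝ) + (thd G po mt z : ℝ) ≤ d := by exact_mod_cast h2
    linarith
  · have h2 : b ≠ mt (po z) := hb.resolve_left h1
    rw [mem_Hs, not_lt] at h1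
    have h3 : ((nb G z ∩ pos po b).card : ℝ) ≤ (thd G po mt z : ℝ) := by
      exact_mod_cast nbo (G := G) z b h2
    have h4 : ζ / 2 * d ≤ (1 - ζ / 2) * d := by
      apply mul_le_mul_of_nonneg_right _ c.dpos.le
      linarith [c.hζ1]
    linarith

theorem hub1 (c : Ctx C g γ ζ κ h0 G d po mt) (x : XP g ζ G d po mt X) (z : V) (b : Fin p)
    (hb : z ∈ Hs ζ G d po mt ∨ b ≠ mt (po z)) :
    ζ / 4 * d ≤ (((pos po b \ V0s ζ G d po mt X) \ nb G z).card : ℝ) := by
  have h1 := hub0 c z b hb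
  have h2 := card_Wge c x b
  have h3 : (pos po b \ V0s ζ G d po mt X).card ≤
      ((pos po b \ V0s ζ G d po mt X) \ nb G z).card + (nb G z ∩ pos po b).card := by
    rw [← card_sdiff_add_card_inter (pos po b \ V0s ζ G d po mt X) (nb G z)]
    apply Nat.add_le_add_left
    apply card_le_card
    intro w hw
    rw [mem_inter, mem_sdiff] at hw
    rw [mem_inter]
    exact ⟨hw.2, hw.1.1⟩
  have h4 : ((pos po b \ V0s ζ G d po mt X).card : ℝ) ≤
      (((pos po b \ V0s ζ G d po mt X) \ nb G z).card : ℝ) + ((nb G z ∩ pos po b).card : ℝ) := by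
    exact_mod_cast h3
  have h5 : 0 < ζ * d := mul_pos c.hζ0 c.dpos
  linarith

theorem hub2 (c : Ctx C g γ ζ κ h0 G d po mt) (z : V) (b : Fin p)
    (hb : z ∈ Hs ζ G d po mt ∨ b ≠ mt (po z)) :
    ζ / 4 * d ≤ ((nb G z \ (pos po b \ V0s ζ G d po mt X)).card : ℝ) := by
  have h1 := hub0 c z b hb
  have h3 : (nb G z).card ≤
      (nb G z \ (pos po b \ V0s ζ G d po mt X)).card + (nb G z ∩ pos po b).card := by
    rw [← card_sdiff_add_card_inter (nb G z) (pos po b)]
    apply Nat.add_le_add_right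
    apply card_le_card
    intro w hw
    rw [mem_sdiff] at hw
    rw [mem_sdiff, mem_sdiff]
    exact ⟨hw.1, fun h => hw.2 h.1⟩
  rw [c.reg] at h3
  have h4 : (d : ℝ) ≤ ((nb G z \ (pos po b \ V0s ζ G d po mt X)).card : ℝ) +
      ((nb G z ∩ pos po b).card : ℝ) := by
    exact_mod_cast h3
  have h5 : 0 < ζ * d := mul_pos c.hζ0 c.dpos
  linarith

theorem rg_ne (c : Ctx C g γ ζ κ h0 G d po mt) (x : XP g ζ G d po mt X) (a : Fin p)
    (ha : a < mt a) (β : Bool) (z : V) (hz : z ∈ V0s ζ G d po mt X)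
    (hr : (mkP g ζ G d po mt X hM).rg z ≠ some (rep mt hM a, β)) :
    z ∈ Hs ζ G d po mt ∨ (if β = true then mt a else a) ≠ mt (po z) := by
  by_contra hc
  push Not at hc
  obtain ⟨h1, h2⟩ := hc
  have h3 : z ∈ X (po z) := ((mem_V0s x z).1 hz).resolve_left h1
  apply hr
  have inv := c.P.inv
  rcases β with _ | _
  · simp only [Bool.false_eq_true, if_false] at h2
    have h4 : po z = mt a := by rw [h2, inv]
    show (if z ∈ X (po z) ∧ mt (po z) ≠ po z then
      some (rep mt hM (po z), decide (po z < mt (po z))) else none) = _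
    rw [if_pos ⟨h3, by rw [h4, inv]; exact ha.ne⟩, h4, rep_mt inv, inv,
      decide_eq_false (not_lt.2 ha.le)]
  · simp only [if_true] at h2
    have h4 : po z = a := by rw [← inv (po z), ← h2, inv]
    show (if z ∈ X (po z) ∧ mt (po z) ≠ po z then
      some (rep mt hM (po z), decide (po z < mt (po z))) else none) = _
    rw [if_pos ⟨h3, by rw [h4]; exact ha.ne'⟩, h4, decide_eq_true ha]

theorem rg_some (a : Fin M) (β : Bool) (z : V)
    (hr : (mkP g ζ G d po mt X hM).rg z = some (a, β)) :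
    z ∈ X (po z) ∧ mt (po z) ≠ po z ∧ rep mt hM (po z) = a ∧ decide (po z < mt (po z)) = β := by
  have h : (if z ∈ X (po z) ∧ mt (po z) ≠ po z then
      some (rep mt hM (po z), decide (po z < mt (po z))) else none) = some (a, β) := hr
  by_cases h1 : z ∈ X (po z) ∧ mt (po z) ≠ po z
  · rw [if_pos h1, Option.some.injEq, Prod.mk.injEq] at h
    exact ⟨h1.1, h1.2, h.1, h.2⟩
  · rw [if_neg h1] at h
    exact absurd h (by simp)

/-- thin degrees -/
theorem thin_le (c : Ctx C g γ ζ κ h0 G d po mt) (v : V) (hv : v ∉ V0s ζ G d po mt X) :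
    (nb (thin G (mkP g ζ G d po mt X hM)) v).card ≤
      thd G po mt v + (V0s ζ G d po mt X).card := by
  unfold thd
  refine le_trans (card_le_card ?_) (card_union_le _ _)
  intro w hw
  rw [mem_nb] at hw
  rw [mem_union, mem_sdiff, mem_nb, mem_pos]
  by_cases h1 : w ∈ V0s ζ G d po mt X
  · exact Or.inr h1
  · left
    refine ⟨hw.1, fun h2 => hw.2 ?_⟩
    rw [bulk_iff hM c.P.inv]
    exact ⟨hw.1, hv, h1, h2⟩

/-- bulk degrees -/
theorem N_ge (c : Ctx C g γ ζ κ h0 G d po mt) (x : XP g ζ G d po mt X) (v : V)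
    (hv : v ∉ V0s ζ G d po mt X) :
    99 / 100 * (d : ℝ) ≤ ((nb (bulk G (mkP g ζ G d po mt X hM)) v).card : ℝ) := by
  have h1 := c.thd_add v
  have h2 : (nb G v ∩ pos po (mt (po v))).card ≤
      (nb (bulk G (mkP g ζ G d po mt X hM)) v).card + (V0s ζ G d po mt X).card := by
    refine le_trans (card_le_card ?_) (card_union_le _ _)
    intro w hw
    rw [mem_inter, mem_nb, mem_pos] at hw
    rw [mem_union, mem_N hM c.P.inv]
    by_cases h1 : w ∈ V0s ζ G d po mt X
    · exact Or.inr h1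
    · exact Or.inl ⟨hw.1, hv, h1, hw.2⟩
  have h3 : (d : ℝ) ≤ (thd G po mt v : ℝ) +
      (((nb (bulk G (mkP g ζ G d po mt X hM)) v).card : ℝ) +
        ((V0s ζ G d po mt X).card : ℝ)) := by
    have : d ≤ thd G po mt v +
      ((nb (bulk G (mkP g ζ G d po mt X hM)) v).card + (V0s ζ G d po mt X).card) := by omega
    exact_mod_cast this
  have h4 := cardV0 c x
  have h5 : v ∉ Hs ζ G d po mt := fun h => hv ((mem_V0s x v).2 (Or.inl h))
  rw [mem_Hs, not_lt] at h5
  have h6 : (ζ / 2 + κ) * d ≤ 1 / 100 * d := by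
    apply mul_le_mul_of_nonneg_right _ c.dpos.le
    linarith [c.hκζ, c.hζ1]
  linarith

/-- number of crossing bulk edges -/
theorem cr_eq (c : Ctx C g γ ζ κ h0 G d po mt) (a : Fin p) (A : Finset V)
    (hA : A ⊆ pV (mkP g ζ G d po mt X hM) (rep mt hM a)) :
    ∑ v ∈ A, (nb (bulk G (mkP g ζ G d po mt X hM)) v \ A).card =
      eb (bulk G (mkP g ζ G d po mt X hM)) A
        (pV (mkP g ζ G d po mt X hM) (rep mt hM a) \ A) := by
  unfold eb
  refine sum_congr rfl (fun v hv => ?_)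
  congr 1
  ext w
  rw [mem_sdiff, mem_inter, mem_sdiff]
  constructor
  · rintro ⟨h1, h2⟩
    refine ⟨h1, ?_, h2⟩
    rw [mem_N hM c.P.inv] at h1
    have h3 := (mem_pVr hM c.P.inv a v).1 (hA hv)
    rw [mem_pVr hM c.P.inv]
    refine ⟨h1.2.2.1, ?_⟩
    rcases h3.2 with h4 | h4
    · right
      rw [h1.2.2.2, h4]
    · left
      rw [h1.2.2.2, h4, c.P.inv]
  · rintro ⟨h1, _, h2⟩
    exact ⟨h1, h2⟩

/-- one small intersection with a position -/
theorem cross1 (c : Ctx C g γ ζ κ h0 G d po mt) (x : XP g ζ G d po mt X) (a : Fin p)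
    (A : Finset V) (hA : A ⊆ pV (mkP g ζ G d po mt X hM) (rep mt hM a)) (b : Fin p)
    (hb : b = a ∨ b = mt a) (hx : ((A ∩ pos po b).card : ℝ) < 45 / 100 * d) :
    24 / 100 * (d : ℝ) ^ 2 ≤
        ((∑ v ∈ A, (nb (bulk G (mkP g ζ G d po mt X hM)) v \ A).card : ℕ) : ℝ) ∨
      1 / 2 * d * (A.card : ℝ) ≤
        ((∑ v ∈ A, (nb (bulk G (mkP g ζ G d po mt X hM)) v \ A).card : ℕ) : ℝ) := by
  have inv := c.P.inv
  have hd := c.dpos
  -- the degree bound
  have key : ∀ v ∈ A, ∀ e : Fin p, po v = mt e → ((A ∩ pos po e).card : ℝ) < 45 / 100 * d →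
      54 / 100 * (d : ℝ) ≤
        ((nb (bulk G (mkP g ζ G d po mt X hM)) v \ A).card : ℝ) := by
    intro v hv e he hxe
    have hv0 := ((mem_pVr hM inv a v).1 (hA hv)).1
    have h1 := N_ge hM c x v hv0
    have h2 := card_sdiff_add_card_inter (nb (bulk G (mkP g ζ G d po mt X hM)) v) A
    have h3 : (nb (bulk G (mkP g ζ G d po mt X hM)) v ∩ A).card ≤ (A ∩ pos po e).card := by
      apply card_le_card
      intro w hw
      rw [mem_inter, mem_N hM inv] at hw
      rw [mem_inter, mem_pos]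
      exact ⟨hw.2, by rw [hw.1.2.2.2, he, inv]⟩
    have h4 : ((nb (bulk G (mkP g ζ G d po mt X hM)) v).card : ℝ) =
        ((nb (bulk G (mkP g ζ G d po mt X hM)) v \ A).card : ℝ) +
          ((nb (bulk G (mkP g ζ G d po mt X hM)) v ∩ A).card : ℝ) := by exact_mod_cast h2.symm
    have h5 : ((nb (bulk G (mkP g ζ G d po mt X hM)) v ∩ A).card : ℝ) ≤
        ((A ∩ pos po e).card : ℝ) := by exact_mod_cast h3
    linarith
  by_cases hy : ((A ∩ pos po (mt b)).card : ℝ) < 45 / 100 * d
  · right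
    push_cast
    have h1 : ∀ v ∈ A, 1 / 2 * (d : ℝ) ≤
        ((nb (bulk G (mkP g ζ G d po mt X hM)) v \ A).card : ℝ) := by
      intro v hv
      have hv1 := ((mem_pVr hM inv a v).1 (hA hv)).2
      have h2 : po v = mt b ∨ po v = mt (mt b) := by
        rw [inv]
        rcases hb with hb | hb
        · rw [hb]
          exact hv1.symm
        · rw [hb, inv]
          exact hv1
      rcases h2 with h2 | h2
      · have := key v hv b h2 hx
        linarith
      · have := key v hv (mt b) h2 hy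
        linarith
    have h2 := sum_le_sum h1
    rw [sum_const, nsmul_eq_mul] at h2
    linarith
  · left
    push Not at hy
    push_cast
    have h1 : ∀ v ∈ A ∩ pos po (mt b), 54 / 100 * (d : ℝ) ≤
        ((nb (bulk G (mkP g ζ G d po mt X hM)) v \ A).card : ℝ) := by
      intro v hv
      rw [mem_inter, mem_pos] at hv
      exact key v hv.1 b hv.2 hx
    have h2 := sum_le_sum h1
    rw [sum_const, nsmul_eq_mul] at h2
    have h3 : ∑ v ∈ A ∩ pos po (mt b),
        ((nb (bulk G (mkP g ζ G d po mt X hM)) v \ A).card : ℝ) ≤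
        ∑ v ∈ A, ((nb (bulk G (mkP g ζ G d po mt X hM)) v \ A).card : ℝ) :=
      sum_le_sum_of_subset_of_nonneg inter_subset_left (fun _ _ _ => Nat.cast_nonneg _)
    have h4 : 45 / 100 * (d : ℝ) * (54 / 100 * d) ≤
        ((A ∩ pos po (mt b)).card : ℝ) * (54 / 100 * d) :=
      mul_le_mul_of_nonneg_right hy (by positivity)
    nlinarith

/-- size of the product -/
theorem prod_le (c : Ctx C g γ ζ κ h0 G d po mt) (A B : Finset V) :
    γ / (16 * C ^ 2) * A.card * B.card ≤ γ / 16 * (d : ℝ) ^ 2 ∧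
      γ / (16 * C ^ 2) * A.card * B.card ≤ 1 / 2 * d * (A.card : ℝ) := by
  have hC : 0 < C := by linarith [c.hC]
  have hA : (A.card : ℝ) ≤ C * d := le_trans (by exact_mod_cast card_le_univ A) c.siz
  have hB : (B.card : ℝ) ≤ C * d := le_trans (by exact_mod_cast card_le_univ B) c.siz
  have hd := c.dpos
  have hγ := c.hγ0
  have h1 : γ / (16 * C ^ 2) * A.card * B.card ≤ γ / (16 * C ^ 2) * A.card * (C * d) :=
    mul_le_mul_of_nonneg_left hB (by positivity)
  have h2 : γ / (16 * C ^ 2) * A.card * (C * d) = γ / (16 * C) * (A.card * d) := by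
    field_simp
  constructor
  · have h3 : γ / (16 * C) * (A.card * d) ≤ γ / (16 * C) * ((C * d) * d) := by
      apply mul_le_mul_of_nonneg_left _ (by positivity)
      exact mul_le_mul_of_nonneg_right hA hd.le
    have h4 : γ / (16 * C) * ((C * d) * d) = γ / 16 * (d : ℝ) ^ 2 := by
      field_simp
    linarith
  · have h3 : γ / (16 * C) ≤ 1 / 2 := by
      rw [div_le_iff₀ (by linarith)]
      have := c.hC
      have := c.hγ1
      linarith
    have h4 : γ / (16 * C) * (A.card * d) ≤ 1 / 2 * (A.card * d) :=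
      mul_le_mul_of_nonneg_right h3 (by positivity)
    linarith

/-- edges into the rest of a position, with the exceptional vertices -/
theorem into (c : Ctx C g γ ζ κ h0 G d po mt) (x : XP g ζ G d po mt X) (a : Fin p)
    (A S : Finset V) (e : Fin p) (hA : A ⊆ pV (mkP g ζ G d po mt X hM) (rep mt hM a))
    (hS : S ⊆ A) (he : ∀ v ∈ S, po v = mt e) (D : Finset V)
    (hD : ∀ w ∈ D, po w = e ∧ (w ∉ V0s ζ G d po mt X → w ∉ A)) :
    (eb G S D : ℝ) ≤ ∑ v ∈ S,
      (((nb (bulk G (mkP g ζ G d po mt X hM)) v \ A).card : ℝ) + κ * d) := by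
  unfold eb
  push_cast
  apply sum_le_sum
  intro v hv
  have h1 : (nb G v ∩ D).card ≤ (nb (bulk G (mkP g ζ G d po mt X hM)) v \ A).card +
      (V0s ζ G d po mt X).card := by
    refine le_trans (card_le_card ?_) (card_union_le _ _)
    intro w hw
    rw [mem_inter, mem_nb] at hw
    rw [mem_union, mem_sdiff, mem_N hM c.P.inv]
    by_cases h1 : w ∈ V0s ζ G d po mt X
    · exact Or.inr h1
    · left
      refine ⟨⟨hw.1, ((mem_pVr hM c.P.inv a v).1 (hA (hS hv))).1, h1, ?_⟩, (hD w hw.2).2 h1⟩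
      rw [(hD w hw.2).1, he v hv, c.P.inv]
  have h2 : ((nb G v ∩ D).card : ℝ) ≤
      ((nb (bulk G (mkP g ζ G d po mt X hM)) v \ A).card : ℝ) +
        ((V0s ζ G d po mt X).card : ℝ) := by exact_mod_cast h1
  have h3 := cardV0 c x
  linarith

/-- sum of the error terms -/
theorem err (c : Ctx C g γ ζ κ h0 G d po mt) (A : Finset V) (f : V → ℝ) :
    ∑ v ∈ A, (f v + κ * d) ≤ ∑ v ∈ A, f v + γ / 32 * (d : ℝ) ^ 2 := by
  rw [sum_add_distrib, sum_const, nsmul_eq_mul]
  have hA : (A.card : ℝ) ≤ C * d := le_trans (by exact_mod_cast card_le_univ A) c.siz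
  have hd := c.dpos
  have hκ := c.hκ0
  have h1 : (A.card : ℝ) * (κ * d) ≤ (C * d) * (κ * d) :=
    mul_le_mul_of_nonneg_right hA (by positivity)
  have h2 : (C * κ) * (d : ℝ) ^ 2 ≤ (γ / 32) * (d : ℝ) ^ 2 :=
    mul_le_mul_of_nonneg_right c.hκγ (by positivity)
  nlinarith

/-- cuts of the pieces -/
theorem cutV (c : Ctx C g γ ζ κ h0 G d po mt) (x : XP g ζ G d po mt X) (a : Fin p)
    (A : Finset V) (hA : A ⊆ pV (mkP g ζ G d po mt X hM) (rep mt hM a)) :
    γ / (16 * C ^ 2) * A.card *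
        (pV (mkP g ζ G d po mt X hM) (rep mt hM a) \ A).card ≤
      ((∑ v ∈ A, (nb (bulk G (mkP g ζ G d po mt X hM)) v \ A).card : ℕ) : ℝ) := by
  have inv := c.P.inv
  have hd := c.dpos
  have hd2 : 0 < (d : ℝ) ^ 2 := by positivity
  have fin : ∀ (A B : Finset V) (r : ℝ),
      (24 / 100 * (d : ℝ) ^ 2 ≤ r ∨ 1 / 2 * d * (A.card : ℝ) ≤ r) →
      γ / (16 * C ^ 2) * A.card * B.card ≤ r := by
    intro A B r h
    have h1 := prod_le c A B
    rcases h with h | h
    · have h2 : γ / 16 * (d : ℝ) ^ 2 ≤ 24 / 100 * (d : ℝ) ^ 2 := by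
        apply mul_le_mul_of_nonneg_right _ hd2.le
        linarith [c.hγ1]
      linarith [h1.1]
    · linarith [h1.2]
  by_cases h1 : ∃ b, (b = a ∨ b = mt a) ∧ ((A ∩ pos po b).card : ℝ) < 45 / 100 * d
  · obtain ⟨b, hb, hx⟩ := h1
    exact fin _ _ _ (cross1 hM c x a A hA b hb hx)
  by_cases h2 : ∃ b, (b = a ∨ b = mt a) ∧
      (((pV (mkP g ζ G d po mt X hM) (rep mt hM a) \ A) ∩ pos po b).card : ℝ) < 45 / 100 * d
  · obtain ⟨b, hb, hx⟩ := h2
    have h3 := cross1 hM c x a (pV (mkP g ζ G d po mt X hM) (rep mt hM a) \ A) sdiff_subset b hb hx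
    have h4 := fin _ A _ h3
    rw [cr_eq hM c a _ sdiff_subset, eb_symm, Finset.sdiff_sdiff_eq_self hA, ← cr_eq hM c a A hA] at h4
    linarith
  push Not at h1 h2
  have h3 : γ * (d : ℝ) ^ 2 ≤
      ((∑ v ∈ A, (nb (bulk G (mkP g ζ G d po mt X hM)) v \ A).card : ℕ) : ℝ) +
        γ / 32 * (d : ℝ) ^ 2 := by
    have h45 : ∀ S T : Finset V, S ⊆ T → 45 / 100 * (d : ℝ) ≤ (S.card : ℝ) → d ≤ 3 * T.card := by
      intro S T hST hS
      have h4 : (d : ℝ) ≤ 3 * (T.card : ℝ) := by
        have : (S.card : ℝ) ≤ (T.card : ℝ) := by exact_mod_cast card_le_card hST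
        linarith
      exact_mod_cast h4
    push_cast
    by_cases ha : mt a = a
    · -- one-sided
      have hAa : ∀ v ∈ A, po v = a := by
        intro v hv
        have := ((mem_pVr hM inv a v).1 (hA hv)).2
        rw [ha, or_self] at this
        exact this
      have h4 := c.P.cut a ha A (fun v hv => (mem_pos po a v).2 (hAa v hv))
        (h45 _ _ inter_subset_left (h1 a (Or.inl rfl)))
        (h45 ((pV (mkP g ζ G d po mt X hM) (rep mt hM a) \ A) ∩ pos po a) _ (by
          intro v hv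
          rw [mem_inter, mem_sdiff] at hv
          rw [mem_sdiff]
          exact ⟨hv.2, hv.1.2⟩) (h2 a (Or.inl rfl)))
      have h5 := into hM c x a A A a hA subset_rfl (fun v hv => by rw [hAa v hv, ha])
        (pos po a \ A) (fun w hw => by
          rw [mem_sdiff, mem_pos] at hw
          exact ⟨hw.1, fun _ => hw.2⟩)
      exact h4.trans (h5.trans (err c A _))
    · -- two-sided
      have h4 := c.P.cu2 a ha (A ∩ pos po a) inter_subset_right (A ∩ pos po (mt a))
        inter_subset_right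
        (h45 _ _ subset_rfl (h1 a (Or.inl rfl)))
        (h45 ((pV (mkP g ζ G d po mt X hM) (rep mt hM a) \ A) ∩ pos po a) _ (by
          intro v hv
          rw [mem_inter, mem_sdiff] at hv
          rw [mem_sdiff]
          exact ⟨hv.2, fun h => hv.1.2 (mem_inter.1 h).1⟩) (h2 a (Or.inl rfl)))
        (h45 _ _ subset_rfl (h1 (mt a) (Or.inr rfl)))
        (h45 ((pV (mkP g ζ G d po mt X hM) (rep mt hM a) \ A) ∩ pos po (mt a)) _ (by
          intro v hv
          rw [mem_inter, mem_sdiff] at hv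
          rw [mem_sdiff]
          exact ⟨hv.2, fun h => hv.1.2 (mem_inter.1 h).1⟩) (h2 (mt a) (Or.inr rfl)))
      rw [eb_symm G (pos po a \ (A ∩ pos po a))] at h4
      have h5 := into hM c x a A (A ∩ pos po a) (mt a) hA inter_subset_left (fun v hv => by
          rw [mem_inter, mem_pos] at hv
          rw [inv, hv.2])
        (pos po (mt a) \ (A ∩ pos po (mt a))) (fun w hw => by
          rw [mem_sdiff, mem_pos] at hw
          exact ⟨hw.1, fun _ h => hw.2 (mem_inter.2 ⟨h, (mem_pos _ _ _).2 hw.1⟩)⟩)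
      have h6 := into hM c x a A (A ∩ pos po (mt a)) a hA inter_subset_left (fun v hv => by
          rw [mem_inter, mem_pos] at hv
          exact hv.2)
        (pos po a \ (A ∩ pos po a)) (fun w hw => by
          rw [mem_sdiff, mem_pos] at hw
          exact ⟨hw.1, fun _ h => hw.2 (mem_inter.2 ⟨h, (mem_pos _ _ _).2 hw.1⟩)⟩)
      have hdis : Disjoint (A ∩ pos po a) (A ∩ pos po (mt a)) := by
        rw [disjoint_left]
        intro v hv hv'
        rw [mem_inter, mem_pos] at hv hv'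
        exact ha (hv'.2.symm.trans hv.2)
      have hun : (A ∩ pos po a) ∪ (A ∩ pos po (mt a)) = A := by
        ext v
        rw [mem_union, mem_inter, mem_inter, mem_pos, mem_pos]
        constructor
        · rintro (h | h)
          · exact h.1
          · exact h.1
        · intro h
          rcases ((mem_pVr hM inv a v).1 (hA h)).2 with h' | h'
          · exact Or.inl ⟨h, h'⟩
          · exact Or.inr ⟨h, h'⟩
      have h7 := sum_union hdis (f := fun v =>
        (((nb (bulk G (mkP g ζ G d po mt X hM)) v \ A).card : ℝ) + κ * d))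
      rw [hun] at h7
      have h8 := err c A (fun v => ((nb (bulk G (mkP g ζ G d po mt X hM)) v \ A).card : ℝ))
      linarith
  have h4 := (prod_le c A (pV (mkP g ζ G d po mt X hM) (rep mt hM a) \ A)).1
  have h5 : 0 < γ * (d : ℝ) ^ 2 := mul_pos c.hγ0 hd2
  linarith

/-- distance to bipartite -/
theorem nbiV (c : Ctx C g γ ζ κ h0 G d po mt) (x : XP g ζ G d po mt X) (a : Fin p)
    (ha : mt a = a) (A : Finset V)
    (hA : A ⊆ pV (mkP g ζ G d po mt X hM) (rep mt hM a)) :
    γ / (16 * C ^ 2) * (d : ℝ) ^ 2 ≤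
      (eb (bulk G (mkP g ζ G d po mt X hM)) A A : ℝ) +
        eb (bulk G (mkP g ζ G d po mt X hM))
          (pV (mkP g ζ G d po mt X hM) (rep mt hM a) \ A)
          (pV (mkP g ζ G d po mt X hM) (rep mt hM a) \ A) := by
  have inv := c.P.inv
  have hd := c.dpos
  have hd2 : 0 < (d : ℝ) ^ 2 := by positivity
  have hC := c.hC
  have hρ : γ / (16 * C ^ 2) ≤ γ := by
    rw [div_le_iff₀ (by positivity)]
    have h1 : (1 : ℝ) ≤ C ^ 2 := one_le_pow₀ hC
    nlinarith [c.hγ0]
  have hρ2 : γ / (16 * C ^ 2) * (d : ℝ) ^ 2 ≤ γ * (d : ℝ) ^ 2 :=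
    mul_le_mul_of_nonneg_right hρ hd2.le
  set Pv := pV (mkP g ζ G d po mt X hM) (rep mt hM a) with hPv
  have hPvc : 99 / 100 * (d : ℝ) ≤ (Pv.card : ℝ) := by
    rw [hPv, pV_one hM inv a ha]
    have h1 := card_Wge c x a
    have h2 : 99 / 100 * (d : ℝ) ≤ (1 - ζ / 16) * d := by
      apply mul_le_mul_of_nonneg_right _ hd.le
      linarith [c.hζ1]
    linarith
  -- small set: many edges inside the complement
  have key : ∀ A B : Finset V, A ∪ B = Pv → (A.card : ℝ) < 45 / 100 * d →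
      γ * (d : ℝ) ^ 2 ≤ (eb (bulk G (mkP g ζ G d po mt X hM)) B B : ℝ) := by
    intro A B hAB hAc
    have hB : B ⊆ Pv := by
      rw [← hAB]
      exact subset_union_right
    have h1 : (Pv.card : ℝ) ≤ (A.card : ℝ) + (B.card : ℝ) := by
      rw [← hAB]
      exact_mod_cast card_union_le A B
    have h2 : ∀ v ∈ B, 54 / 100 * (d : ℝ) ≤
        ((nb (bulk G (mkP g ζ G d po mt X hM)) v ∩ B).card : ℝ) := by
      intro v hv
      have hv1 := (mem_pVr hM inv a v).1 (hB hv)
      have h3 := N_ge hM c x v hv1.1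
      have h4 : (nb (bulk G (mkP g ζ G d po mt X hM)) v).card ≤
          (nb (bulk G (mkP g ζ G d po mt X hM)) v ∩ B).card + A.card := by
        refine le_trans (card_le_card ?_) (card_union_le _ _)
        intro w hw
        have hw' := (mem_N hM inv v w).1 hw
        have hwP : w ∈ Pv := by
          rw [hPv, mem_pVr hM inv]
          refine ⟨hw'.2.2.1, ?_⟩
          rw [hw'.2.2.2]
          rcases hv1.2 with h5 | h5
          · right
            rw [h5]
          · left
            rw [h5, inv]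
        rw [← hAB, mem_union] at hwP
        rw [mem_union, mem_inter]
        rcases hwP with h5 | h5
        · exact Or.inr h5
        · exact Or.inl ⟨hw, h5⟩
      have h5 : ((nb (bulk G (mkP g ζ G d po mt X hM)) v).card : ℝ) ≤
          ((nb (bulk G (mkP g ζ G d po mt X hM)) v ∩ B).card : ℝ) + (A.card : ℝ) := by
        exact_mod_cast h4
      linarith
    have h3 := sum_le_sum h2
    rw [sum_const, nsmul_eq_mul] at h3
    have h4 : (eb (bulk G (mkP g ζ G d po mt X hM)) B B : ℝ) =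
        ∑ v ∈ B, ((nb (bulk G (mkP g ζ G d po mt X hM)) v ∩ B).card : ℝ) := by
      unfold eb
      push_cast
      rfl
    rw [h4]
    have h5 : 54 / 100 * (d : ℝ) ≤ (B.card : ℝ) := by linarith
    have h6 : 54 / 100 * (d : ℝ) * (54 / 100 * d) ≤ (B.card : ℝ) * (54 / 100 * d) :=
      mul_le_mul_of_nonneg_right h5 (by positivity)
    have h7 : γ * (d : ℝ) ^ 2 ≤ 1 / 100 * (d : ℝ) ^ 2 :=
      mul_le_mul_of_nonneg_right c.hγ1 hd2.le
    nlinarith
  have hun : A ∪ (Pv \ A) = Pv := union_sdiff_of_subset hA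
  have hun' : (Pv \ A) ∪ A = Pv := sdiff_union_of_subset hA
  have hnn1 : (0 : ℝ) ≤ (eb (bulk G (mkP g ζ G d po mt X hM)) A A : ℝ) := Nat.cast_nonneg _
  have hnn2 : (0 : ℝ) ≤ (eb (bulk G (mkP g ζ G d po mt X hM)) (Pv \ A) (Pv \ A) : ℝ) :=
    Nat.cast_nonneg _
  by_cases h1 : (A.card : ℝ) < 45 / 100 * d
  · have := key A (Pv \ A) hun h1
    linarith
  by_cases h2 : ((Pv \ A).card : ℝ) < 45 / 100 * d
  · have := key (Pv \ A) A hun' h2
    linarith
  push Not at h1 h2
  have hAa : ∀ v ∈ Pv, po v = a := by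
    intro v hv
    have := ((mem_pVr hM inv a v).1 hv).2
    rw [ha, or_self] at this
    exact this
  have hsub : Pv \ A ⊆ pos po a \ A := by
    intro v hv
    rw [mem_sdiff] at hv
    rw [mem_sdiff, mem_pos]
    exact ⟨hAa v hv.1, hv.2⟩
  have h45 : ∀ S T : Finset V, S ⊆ T → 45 / 100 * (d : ℝ) ≤ (S.card : ℝ) → d ≤ 3 * T.card := by
    intro S T hST hS
    have h4 : (d : ℝ) ≤ 3 * (T.card : ℝ) := by
      have : (S.card : ℝ) ≤ (T.card : ℝ) := by exact_mod_cast card_le_card hST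
      linarith
    exact_mod_cast h4
  have h3 := c.P.nbi a ha A (fun v hv => (mem_pos po a v).2 (hAa v (hA hv)))
    (h45 _ _ subset_rfl h1) (h45 _ _ hsub h2)
  -- the edges inside `A`
  have h4 : (eb G A A : ℝ) ≤ (eb (bulk G (mkP g ζ G d po mt X hM)) A A : ℝ) := by
    unfold eb
    push_cast
    apply sum_le_sum
    intro v hv
    have h5 : (nb G v ∩ A).card ≤ (nb (bulk G (mkP g ζ G d po mt X hM)) v ∩ A).card := by
      apply card_le_card
      intro w hw
      rw [mem_inter, mem_nb] at hw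
      rw [mem_inter, mem_N hM inv]
      exact ⟨⟨hw.1, ((mem_pVr hM inv a v).1 (hA hv)).1, ((mem_pVr hM inv a w).1 (hA hw.2)).1,
        by rw [hAa w (hA hw.2), hAa v (hA hv), ha]⟩, hw.2⟩
    exact_mod_cast h5
  -- the edges inside the rest
  have h5 : (eb G (pos po a \ A) (pos po a \ A) : ℝ) ≤
      (eb (bulk G (mkP g ζ G d po mt X hM)) (Pv \ A) (Pv \ A) : ℝ) + γ / 16 * (d : ℝ) ^ 2 := by
    have h6 : (pos po a \ A) = (Pv \ A) ∪ (pos po a \ A).filter
        (fun v => v ∈ V0s ζ G d po mt X) := by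
      ext v
      rw [mem_union, mem_filter, mem_sdiff, mem_sdiff, mem_pos, hPv, mem_pVr hM inv, ha, or_self]
      constructor
      · rintro ⟨h6, h7⟩
        by_cases h8 : v ∈ V0s ζ G d po mt X
        · exact Or.inr ⟨⟨h6, h7⟩, h8⟩
        · exact Or.inl ⟨⟨h8, h6⟩, h7⟩
      · rintro (h6 | h6)
        · exact ⟨h6.1.2, h6.2⟩
        · exact h6.1
    have h7 : (eb G (pos po a \ A) (pos po a \ A) : ℝ) ≤
        ∑ v ∈ Pv \ A, ((nb G v ∩ (pos po a \ A)).card : ℝ) +
          ∑ v ∈ (pos po a \ A).filter (fun v => v ∈ V0s ζ G d po mt X),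
            ((nb G v ∩ (pos po a \ A)).card : ℝ) := by
      unfold eb
      push_cast
      have h8 : ∀ f : V → ℝ, (∀ v, 0 ≤ f v) → ∑ v ∈ pos po a \ A, f v ≤
          ∑ v ∈ Pv \ A, f v +
          ∑ v ∈ (pos po a \ A).filter (fun v => v ∈ V0s ζ G d po mt X), f v := by
        intro f hf
        have h9 := sum_union_inter (s₁ := Pv \ A)
          (s₂ := (pos po a \ A).filter (fun v => v ∈ V0s ζ G d po mt X)) (f := f)
        rw [← h6] at h9
        have h10 : 0 ≤ ∑ v ∈ (Pv \ A) ∩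
            (pos po a \ A).filter (fun v => v ∈ V0s ζ G d po mt X), f v :=
          sum_nonneg (fun v _ => hf v)
        linarith
      exact h8 _ (fun v => Nat.cast_nonneg _)
    have h8 : ∑ v ∈ Pv \ A, ((nb G v ∩ (pos po a \ A)).card : ℝ) ≤
        (eb (bulk G (mkP g ζ G d po mt X hM)) (Pv \ A) (Pv \ A) : ℝ) +
          γ / 32 * (d : ℝ) ^ 2 := by
      have h9 : (eb (bulk G (mkP g ζ G d po mt X hM)) (Pv \ A) (Pv \ A) : ℝ) =
          ∑ v ∈ Pv \ A, ((nb (bulk G (mkP g ζ G d po mt X hM)) v ∩ (Pv \ A)).card : ℝ) := by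
        unfold eb
        push_cast
        rfl
      rw [h9]
      refine le_trans (sum_le_sum (fun v hv => ?_)) (err c (Pv \ A) _)
      rw [mem_sdiff] at hv
      have h10 : (nb G v ∩ (pos po a \ A)).card ≤
          (nb (bulk G (mkP g ζ G d po mt X hM)) v ∩ (Pv \ A)).card +
            (V0s ζ G d po mt X).card := by
        refine le_trans (card_le_card ?_) (card_union_le _ _)
        intro w hw
        rw [mem_inter, mem_nb, mem_sdiff, mem_pos] at hw
        rw [mem_union, mem_inter, mem_N hM inv, mem_sdiff, hPv, mem_pVr hM inv]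
        by_cases h1 : w ∈ V0s ζ G d po mt X
        · exact Or.inr h1
        · exact Or.inl ⟨⟨hw.1, ((mem_pVr hM inv a v).1 hv.1).1, h1,
            by rw [hw.2.1, hAa v hv.1, ha]⟩, ⟨h1, Or.inl hw.2.1⟩, hw.2.2⟩
      have h11 : ((nb G v ∩ (pos po a \ A)).card : ℝ) ≤
          ((nb (bulk G (mkP g ζ G d po mt X hM)) v ∩ (Pv \ A)).card : ℝ) +
            ((V0s ζ G d po mt X).card : ℝ) := by exact_mod_cast h10
      have h12 := cardV0 c x
      linarith
    have h9 : ∑ v ∈ (pos po a \ A).filter (fun v => v ∈ V0s ζ G d po mt X),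
        ((nb G v ∩ (pos po a \ A)).card : ℝ) ≤ γ / 32 * (d : ℝ) ^ 2 := by
      have h10 : ∀ v ∈ (pos po a \ A).filter (fun v => v ∈ V0s ζ G d po mt X),
          ((nb G v ∩ (pos po a \ A)).card : ℝ) ≤ d := by
        intro v _
        have h11 : (nb G v ∩ (pos po a \ A)).card ≤ d := by
          rw [← c.reg v]
          exact card_le_card inter_subset_left
        exact_mod_cast h11
      have h11 := sum_le_sum h10
      rw [sum_const, nsmul_eq_mul] at h11
      have h12 : (((pos po a \ A).filter (fun v => v ∈ V0s ζ G d po mt X)).card : ℝ) ≤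
          κ * d := by
        have h13 : ((pos po a \ A).filter (fun v => v ∈ V0s ζ G d po mt X)).card ≤
            (V0s ζ G d po mt X).card := by
          apply card_le_card
          intro v hv
          exact (mem_filter.1 hv).2
        have h14 := cardV0 c x
        have h15 : (((pos po a \ A).filter (fun v => v ∈ V0s ζ G d po mt X)).card : ℝ) ≤
            ((V0s ζ G d po mt X).card : ℝ) := by exact_mod_cast h13
        linarith
      have h13 : (((pos po a \ A).filter (fun v => v ∈ V0s ζ G d po mt X)).card : ℝ) * d ≤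
          (κ * d) * d := mul_le_mul_of_nonneg_right h12 hd.le
      have h14 : κ ≤ γ / 32 := by
        have h15 : κ * 1 ≤ κ * C := mul_le_mul_of_nonneg_left hC c.hκ0.le
        linarith [c.hκγ]
      have h15 : κ * (d : ℝ) ^ 2 ≤ γ / 32 * (d : ℝ) ^ 2 := mul_le_mul_of_nonneg_right h14 hd2.le
      nlinarith
    linarith
  have h6 : 0 < γ * (d : ℝ) ^ 2 := mul_pos c.hγ0 hd2
  linarith

end main

/-! ### Transfer to the types `Ts P n` -/

/-- the set of vertices of the whole graph -/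
noncomputable def up (P : Pcs V M) (n : Fin M) (S : Finset (Ts P n)) : Finset V :=
  S.map (Function.Embedding.subtype _)

theorem mem_up (P : Pcs V M) (n : Fin M) (S : Finset (Ts P n)) (v : V) :
    v ∈ up P n S ↔ ∃ h : v ∉ P.V0 ∧ P.pc v = n, (⟨v, h⟩ : Ts P n) ∈ S := by
  unfold up
  rw [mem_map]
  constructor
  · rintro ⟨x, hx, rfl⟩
    exact ⟨x.2, hx⟩
  · rintro ⟨h, hx⟩
    exact ⟨⟨v, h⟩, hx, rfl⟩

theorem up_sub (P : Pcs V M) (n : Fin M) (S : Finset (Ts P n)) : up P n S ⊆ pV P n := by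
  intro v hv
  rw [mem_up] at hv
  obtain ⟨h, _⟩ := hv
  unfold pV
  rw [mem_filter]
  exact ⟨mem_univ _, h⟩

theorem up_compl (P : Pcs V M) (n : Fin M) (S : Finset (Ts P n)) :
    up P n (univ \ S) = pV P n \ up P n S := by
  ext v
  rw [mem_sdiff, mem_up, mem_up]
  unfold pV
  rw [mem_filter]
  constructor
  · rintro ⟨h, hx⟩
    rw [mem_sdiff] at hx
    exact ⟨⟨mem_univ _, h⟩, fun ⟨_, h'⟩ => hx.2 h'⟩
  · rintro ⟨⟨_, h⟩, h'⟩
    exact ⟨h, by rw [mem_sdiff]; exact ⟨mem_univ _, fun h2 => h' ⟨h, h2⟩⟩⟩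

theorem card_up (P : Pcs V M) (n : Fin M) (S : Finset (Ts P n)) : (up P n S).card = S.card :=
  card_map _

theorem tr_sdiff (G : SimpleGraph V) (P : Pcs V M) (n : Fin M) (S : Finset (Ts P n))
    (v : Ts P n) : (nb (bk G P n) v \ S).card = (nb (bulk G P) v.1 \ up P n S).card := by
  apply card_bij (fun w _ => w.1)
  · intro w hw
    rw [mem_sdiff, mem_nb] at hw
    rw [mem_sdiff, mem_nb, mem_up]
    exact ⟨hw.1, fun ⟨_, h⟩ => hw.2 h⟩
  · intro w _ w' _ h
    exact Subtype.ext h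
  · intro w hw
    rw [mem_sdiff, mem_nb, mem_up] at hw
    have hw2 : w ∉ P.V0 ∧ P.pc w = n := ⟨hw.1.2.2.1, by rw [← hw.1.2.2.2.1]; exact v.2.2⟩
    refine ⟨⟨w, hw2⟩, ?_, rfl⟩
    rw [mem_sdiff, mem_nb]
    exact ⟨hw.1, fun h => hw.2 ⟨hw2, h⟩⟩

theorem tr_inter (G : SimpleGraph V) (P : Pcs V M) (n : Fin M) (S : Finset (Ts P n))
    (v : Ts P n) : (nb (bk G P n) v ∩ S).card = (nb (bulk G P) v.1 ∩ up P n S).card := by
  apply card_bij (fun w _ => w.1)
  · intro w hw
    rw [mem_inter, mem_nb] at hw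
    rw [mem_inter, mem_nb, mem_up]
    exact ⟨hw.1, w.2, hw.2⟩
  · intro w _ w' _ h
    exact Subtype.ext h
  · intro w hw
    rw [mem_inter, mem_nb, mem_up] at hw
    obtain ⟨h1, h2, h3⟩ := hw
    exact ⟨⟨w, h2⟩, by rw [mem_inter, mem_nb]; exact ⟨h1, h3⟩, rfl⟩

theorem sum_up (P : Pcs V M) (n : Fin M) (S : Finset (Ts P n)) (f : V → ℝ) :
    ∑ v ∈ S, f v.1 = ∑ v ∈ up P n S, f v := by
  unfold up
  rw [sum_map]
  rfl

/-- the result for one context -/
theorem decP {C g γ ζ κ h0 θ : ℝ} {G : SimpleGraph V} {d : ℕ} {po : V → Fin p}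
    {mt : Fin p → Fin p} {X : Fin p → Finset V} (hM : p ≤ M)
    (c : Ctx C g γ ζ κ h0 G d po mt) (x : XP g ζ G d po mt X) (hθ : 4 * C * κ ≤ θ) :
    DecP C g (γ / (16 * C ^ 2)) ζ θ G d (mkP g ζ G d po mt X hM) := by
  have inv := c.P.inv
  have hd := c.dpos
  have hd2 : 0 < (d : ℝ) ^ 2 := by positivity
  have hC := c.hC
  have hκ := c.hκ0
  have hV0 := cardV0 c x
  have hκC : κ ≤ C * κ := by nlinarith
  have hCκ : 0 < C * κ := by positivity
  have hζd : 0 < ζ * d := mul_pos c.hζ0 hd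
  have hκd : κ * d ≤ ζ / 32 * d := mul_le_mul_of_nonneg_right c.hκζ hd.le
  -- thin degrees
  have hthin : ∀ v, v ∉ V0s ζ G d po mt X →
      ((nb (thin G (mkP g ζ G d po mt X hM)) v).card : ℝ) ≤ (thd G po mt v : ℝ) + κ * d := by
    intro v hv
    have h1 : ((nb (thin G (mkP g ζ G d po mt X hM)) v).card : ℝ) ≤ (thd G po mt v : ℝ) +
        ((V0s ζ G d po mt X).card : ℝ) := by exact_mod_cast thin_le hM c v hv
    linarith
  have hnH : ∀ v, v ∉ V0s ζ G d po mt X → (thd G po mt v : ℝ) ≤ ζ / 2 * d := by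
    intro v hv
    have h5 : v ∉ Hs ζ G d po mt := fun h => hv ((mem_V0s x v).2 (Or.inl h))
    rw [mem_Hs, not_lt] at h5
    exact h5
  refine
    { reg := c.reg
      siz := c.siz
      V0c := ?_
      thd := ?_
      ths := ?_
      emp := ?_
      kL := ?_
      kU := ?_
      hubK := ?_
      hubB := ?_
      out := ?_
      rgd := ?_
      rgs := ?_
      nL := ?_
      n4 := ?_
      bal := ?_
      cut := ?_
      nbi := ?_ }
  · -- V0c
    have h1 : κ * d ≤ θ * d := mul_le_mul_of_nonneg_right (by linarith) hd.le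
    exact hV0.trans h1
  · -- thd
    intro v hv
    have h1 := hthin v hv
    have h2 := hnH v hv
    linarith
  · -- ths
    have h1 : ∑ v ∈ univ \ (mkP g ζ G d po mt X hM).V0,
        ((nb (thin G (mkP g ζ G d po mt X hM)) v).card : ℝ) ≤
        ∑ v ∈ univ \ (mkP g ζ G d po mt X hM).V0, ((thd G po mt v : ℝ) + κ * d) := by
      apply sum_le_sum
      intro v hv
      exact hthin v (mem_sdiff.1 hv).2
    rw [sum_add_distrib, sum_const, nsmul_eq_mul] at h1
    have h2 := c.sumthd (univ \ (mkP g ζ G d po mt X hM).V0)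
    have h3 : (((univ \ (mkP g ζ G d po mt X hM).V0 : Finset V)).card : ℝ) ≤ C * d :=
      le_trans (by exact_mod_cast card_le_univ _) c.siz
    have h4 : (((univ \ (mkP g ζ G d po mt X hM).V0 : Finset V)).card : ℝ) * (κ * d) ≤
        (C * d) * (κ * d) := mul_le_mul_of_nonneg_right h3 (by positivity)
    have h5 : h0 ≤ C * κ := by linarith [c.h0le']
    have h6 : h0 * (d : ℝ) ^ 2 ≤ C * κ * (d : ℝ) ^ 2 := mul_le_mul_of_nonneg_right h5 hd2.le
    have h7 : 4 * C * κ * (d : ℝ) ^ 2 ≤ θ * (d : ℝ) ^ 2 := mul_le_mul_of_nonneg_right hθ hd2.le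
    nlinarith
  · -- emp
    intro n hn
    refine ⟨fun v => ?_⟩
    have h1 : rep mt hM (po v.1) = n := v.2.2
    have h2 : tyD g ζ G d po mt n = Ty.E := hn
    rw [← h1] at h2
    exact ty_E inv hM _ h2
  · -- kL
    intro n hn
    obtain ⟨a, ha, rfl, _⟩ := ty_K hM n hn
    rw [card_Ts, pV_one hM inv a ha]
    have h1 := card_Wge c x a
    linarith
  · -- kU
    intro n hn
    obtain ⟨a, ha, rfl, h1⟩ := ty_K hM n hn
    rw [card_Ts, pV_one hM inv a ha]
    rw [not_lt] at h1
    have h2 := card_W x a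
    have h3 : ((pos po a \ V0s ζ G d po mt X).card : ℝ) ≤
        ((pos po a \ Hs ζ G d po mt).card : ℝ) := by
      have : (pos po a \ V0s ζ G d po mt X).card ≤ (pos po a \ Hs ζ G d po mt).card := by omega
      exact_mod_cast this
    linarith
  · -- hubK
    intro n hn z hz
    obtain ⟨a, ha, rfl, h1⟩ := ty_K hM n hn
    rw [pV_one hM inv a ha]
    apply hub1 c x
    by_contra hc
    push Not at hc
    have h2 := ((mem_V0s x z).1 hz).resolve_left hc.1
    have h3 : po z = a := by rw [← inv (po z), ← hc.2, ha]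
    rw [h3, x.nul a ha h1] at h2
    exact notMem_empty _ h2
  · -- hubB
    intro n β hn z hz hr
    obtain ⟨a, ha, rfl⟩ := ty_B' hM n hn
    rw [sV_two hM inv a ha]
    exact hub1 c x z _ (rg_ne hM c x a ha β z hz hr)
  · -- out
    intro n β hn z hz hr
    obtain ⟨a, ha, rfl⟩ := ty_B' hM n hn
    rw [sV_two hM inv a ha]
    exact hub2 c z _ (rg_ne hM c x a ha β z hz hr)
  · -- rgd
    intro z hz n β hr
    obtain ⟨h1, h2, rfl, h3⟩ := rg_some hM n β z hr
    refine ⟨(ty_B inv hM _).2 h2, ?_⟩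
    have h4 : (nb G z \ sV (mkP g ζ G d po mt X hM) (rep mt hM (po z)) β).card ≤
        thd G po mt z + (V0s ζ G d po mt X).card := by
      unfold thd
      refine le_trans (card_le_card ?_) (card_union_le _ _)
      intro w hw
      rw [mem_sdiff, mem_sVr hM inv] at hw
      rw [mem_union, mem_sdiff, mem_pos]
      by_cases h5 : w ∈ V0s ζ G d po mt X
      · exact Or.inr h5
      · refine Or.inl ⟨hw.1, fun h6 => hw.2 ⟨h5, Or.inr h6, ?_⟩⟩
        rw [h6, inv]
        exact h3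
    have h5 : ((nb G z \ sV (mkP g ζ G d po mt X hM) (rep mt hM (po z)) β).card : ℝ) ≤
        (thd G po mt z : ℝ) + ((V0s ζ G d po mt X).card : ℝ) := by exact_mod_cast h4
    have h6 : (thd G po mt z : ℝ) ≤ ζ / 2 * d := by
      have h7 := x.sub _ h1
      rw [mem_sdiff, mem_Hs, not_lt] at h7
      exact h7.2
    linarith
  · -- rgs
    intro z hz z' hz' n β β' hr hr'
    obtain ⟨h1, h2, h3, h4⟩ := rg_some hM n β z hr
    obtain ⟨h1', h2', h3', h4'⟩ := rg_some hM n β' z' hr'
    rcases (rep_iff inv hM (po z) (po z')).1 (h3.trans h3'.symm) with h5 | h5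
    · rw [← h4, ← h4', h5]
    · exfalso
      have h6 : 0 < (X (po z)).card := card_pos.2 ⟨z, h1⟩
      have h7 : 0 < (X (po z')).card := card_pos.2 ⟨z', h1'⟩
      rw [x.two _ h2] at h6
      rw [x.two _ h2', h5, inv] at h7
      omega
  · -- nL
    intro n hn
    obtain ⟨a, ha, rfl, h1⟩ := ty_N hM n hn
    rw [card_Ts, pV_one hM inv a ha]
    have h2 := card_W x a
    rw [x.one a ha h1] at h2
    have h3 : ((pos po a \ Hs ζ G d po mt).card : ℝ) ≤
        ((pos po a \ V0s ζ G d po mt X).card : ℝ) + 3 := by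
      have : (pos po a \ Hs ζ G d po mt).card ≤ (pos po a \ V0s ζ G d po mt X).card + 3 := by
        omega
      exact_mod_cast this
    have h4 := c.hgd
    linarith
  · -- n4
    intro n hn
    obtain ⟨a, ha, rfl, h1⟩ := ty_N hM n hn
    rw [card_Ts, pV_one hM inv a ha]
    have h2 := card_W x a
    rw [x.one a ha h1] at h2
    omega
  · -- bal
    intro n hn
    obtain ⟨a, ha, rfl⟩ := ty_B' hM n hn
    rw [sV_two hM inv a ha, sV_two hM inv a ha]
    simp only [Bool.false_eq_true, if_false, if_true]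
    have h1 := card_W x a
    have h2 := card_W x (mt a)
    have h3 := x.two a ha.ne'
    have h4 := x.two (mt a) (by rw [inv]; exact ha.ne)
    rw [inv] at h4
    omega
  · -- cut
    intro n hn S
    have hex : ∃ a, rep mt hM a = n := by
      rcases hn with hn | hn
      · obtain ⟨a, _, h, _⟩ := ty_N hM n hn
        exact ⟨a, h⟩
      · obtain ⟨a, _, h⟩ := ty_B' hM n hn
        exact ⟨a, h⟩
    obtain ⟨a, rfl⟩ := hex
    have h1 := cutV hM c x a (up _ _ S) (up_sub _ _ S)
    rw [card_up, ← up_compl, card_up] at h1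
    push_cast at h1
    rw [← sum_up _ _ S (fun v =>
      ((nb (bulk G (mkP g ζ G d po mt X hM)) v \ up (mkP g ζ G d po mt X hM) (rep mt hM a)
        S).card : ℝ))] at h1
    refine h1.trans (le_of_eq (sum_congr rfl (fun v _ => ?_)))
    rw [tr_sdiff]
  · -- nbi
    intro n hn S
    obtain ⟨a, ha, rfl, _⟩ := ty_N hM n hn
    have h1 := nbiV hM c x a ha (up _ _ S) (up_sub _ _ S)
    rw [← up_compl] at h1
    unfold eb at h1
    push_cast at h1
    rw [← sum_up _ _ S (fun v =>
      ((nb (bulk G (mkP g ζ G d po mt X hM)) v ∩ up (mkP g ζ G d po mt X hM) (rep mt hM a)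
        S).card : ℝ)),
      ← sum_up _ _ (univ \ S) (fun v =>
      ((nb (bulk G (mkP g ζ G d po mt X hM)) v ∩ up (mkP g ζ G d po mt X hM) (rep mt hM a)
        (univ \ S)).card : ℝ))] at h1
    refine h1.trans (le_of_eq ?_)
    congr 1
    · refine sum_congr rfl (fun v _ => ?_)
      rw [tr_inter]
    · refine sum_congr rfl (fun v _ => ?_)
      rw [← tr_inter]
      congr 2
      ext w
      rw [mem_inter, mem_sdiff, mem_sdiff]
      exact ⟨fun h => ⟨h.1, h.2.2⟩, fun h => ⟨h.1, mem_univ _, h.2⟩⟩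

end

/-- the scale of the exceptional set -/
noncomputable def kap (C : ℝ) (hz ht : ℝ → ℝ) (x : ℝ) : ℝ :=
  min (ht (x / (16 * C ^ 2)) / (4 * C)) (min (hz (x / (16 * C ^ 2)) / 32) (x / (32 * C)))

/-- the trivial pieces of the empty graph -/
def trivP {V : Type u} (M : ℕ) (hV : IsEmpty V) : Pcs V M where
  V0 := ∅
  pc v := (hV.false v).elim
  ty _ := Ty.E
  rg _ := none
  sd _ := false
  pt _ := false
  th _ := 0

theorem dec_triv {V : Type u} [Fintype V] (M : ℕ) (hV : IsEmpty V) (C g ρ ζ θ : ℝ) (hC : 1 ≤ C)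
    (hθ : 0 < θ) (G : SimpleGraph V) (d : ℕ) : DecP C g ρ ζ θ G d (trivP M hV) where
  reg v := (hV.false v).elim
  siz := by
    rw [Fintype.card_eq_zero, Nat.cast_zero]
    positivity
  V0c := by
    show (((∅ : Finset V).card : ℕ) : ℝ) ≤ θ * d
    rw [card_empty, Nat.cast_zero]
    positivity
  thd v := (hV.false v).elim
  ths := by
    have h : (univ \ (trivP M hV).V0 : Finset V) = ∅ := by
      ext v
      exact (hV.false v).elim
    rw [h, sum_empty]
    positivity
  emp n _ := ⟨fun v => hV.false v.1⟩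
  kL n h := by cases h
  kU n h := by cases h
  hubK n h := by cases h
  hubB n β h := by cases h
  out n β h := by cases h
  rgd z := (hV.false z).elim
  rgs z := (hV.false z).elim
  nL n h := by cases h
  n4 n h := by cases h
  bal n h := by cases h
  cut n h := by rcases h with h | h <;> cases h
  nbi n h := by cases h

end DEC2Aux

open DEC2Aux

theorem stmt_DEC2 : Stmt_DEC2.{u} := by
  intro hD1 C g hC hg0 hg1
  have hC0 : 0 < C := by linarith
  refine ⟨⌊3 * C⌋₊, ?_⟩
  intro hz ht hzt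
  have hρ : ∀ x : ℝ, 0 < x → 0 < x / (16 * C ^ 2) := fun x hx => by positivity
  have hk0 : ∀ x, 0 < x → 0 < kap C hz ht x := by
    intro x hx
    have h := hzt _ (hρ x hx)
    unfold kap
    exact lt_min (div_pos h.2.2 (by linarith)) (lt_min (by linarith) (by positivity))
  obtain ⟨Gs, hGs, hmain⟩ := hD1 C
    (fun x => kap C hz ht x * hz (x / (16 * C ^ 2)) / (32 * C)) hC (by
      intro x hx
      exact div_pos (mul_pos (hk0 x hx) (hzt _ (hρ x hx)).1) (by linarith))
  -- the bound for d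
  obtain ⟨B, hB⟩ := (Gs.image (fun x => 18 * C / kap C hz ht x)).exists_le
  obtain ⟨d0, hd0⟩ := exists_nat_ge (max B (max (6 / g) 1))
  refine ⟨insert 1 (Gs.image (fun x => x / (16 * C ^ 2))), d0, ?_, ?_⟩
  · intro ρ hr
    rw [mem_insert, mem_image] at hr
    rcases hr with rfl | ⟨x, hx, rfl⟩
    · norm_num
    · have h1 := hGs x hx
      refine ⟨hρ x h1.1, ?_⟩
      rw [div_le_one (by positivity)]
      have h2 : (1 : ℝ) ≤ C ^ 2 := one_le_pow₀ hC
      linarith
  intro V _ G d hd hreg hsiz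
  rcases isEmpty_or_nonempty V with hV | hV
  · refine ⟨1, mem_insert_self _ _, trivP _ hV, ?_⟩
    have := hzt 1 one_pos
    exact dec_triv _ hV C g 1 (hz 1) (ht 1) hC this.2.2 G d
  have hdr : max B (max (6 / g) 1) ≤ (d : ℝ) := hd0.trans (by exact_mod_cast hd)
  have hd1 : (1 : ℝ) ≤ d := le_trans (le_trans (le_max_right _ _) (le_max_right _ _)) hdr
  obtain ⟨γ, hγ, p, po, mt, hP⟩ := hmain G d (by exact_mod_cast hd1) hreg hsiz hV
  have hγ1 := hGs γ hγ
  have hzt1 := hzt _ (hρ γ hγ1.1)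
  have hk := hk0 γ hγ1.1
  have hM : p ≤ ⌊3 * C⌋₊ := Nat.le_floor hP.pC
  have c : Ctx C g γ (hz (γ / (16 * C ^ 2))) (kap C hz ht γ)
      (kap C hz ht γ * hz (γ / (16 * C ^ 2)) / (32 * C)) G d po mt :=
    { hC := hC
      hg0 := hg0
      hg1 := hg1
      hγ0 := hγ1.1
      hγ1 := hγ1.2
      hζ0 := hzt1.1
      hζ1 := hzt1.2.1
      hκ0 := hk
      hκζ := (min_le_right _ _).trans (min_le_left _ _)
      hκγ := by
        have h1 : kap C hz ht γ ≤ γ / (32 * C) := (min_le_right _ _).trans (min_le_right _ _)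
        rw [le_div_iff₀ (by linarith)] at h1
        linarith
      hh := rfl
      hd := by
        have h1 : 18 * C / kap C hz ht γ ≤ B := hB _ (mem_image_of_mem _ hγ)
        have h2 : 18 * C / kap C hz ht γ ≤ d := h1.trans (le_trans (le_max_left _ _) hdr)
        rw [div_le_iff₀ hk] at h2
        linarith
      hgd := by
        have h2 : 6 / g ≤ d := le_trans (le_trans (le_max_left _ _) (le_max_right _ _)) hdr
        rw [div_le_iff₀ hg0] at h2
        linarith
      P := hP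
      reg := hreg
      siz := hsiz }
  obtain ⟨X, x⟩ := exists_XP g (hz (γ / (16 * C ^ 2))) G d po mt
  refine ⟨γ / (16 * C ^ 2), mem_insert_of_mem (mem_image_of_mem _ hγ), _, decP hM c x ?_⟩
  have h1 : kap C hz ht γ ≤ ht (γ / (16 * C ^ 2)) / (4 * C) := min_le_left _ _
  rw [le_div_iff₀ (by linarith)] at h1
  linarith

end Pool.Agent.Work.MP_db9399_da.helper55
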