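import Pool.Agent.Work.MP_db9399_da_helper55.DEC2
import Pool.Agent.Work.MP_db9399_da.Frame2

/-!
# MP_db9399, DENSE-ALL, block DECS: the pieces, with a scale gap for a bounded set (helper55)
-/

set_option autoImplicit false

namespace Pool.Agent.Work.MP_db9399_da.helper55

open Finset Classical
open Pool.Agent.Work.MP_db9399_all (nb)

universe u

namespace DECSAux

open DEC2Aux

section
variable {V : Type u} [Fintype V] {p : ℕ}

theorem posP_mono {C γ h h' : ℝ} {G : SimpleGraph V} {d : ℕ} {po : V → Fin p}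
    {mt : Fin p → Fin p} (H : PosP C γ h G d po mt) (hh : h ≤ h') : PosP C γ h' G d po mt where
  pC := H.pC
  inv := H.inv
  big := H.big
  sum := H.sum.trans (mul_le_mul_of_nonneg_right hh (by positivity))
  mov := H.mov
  cut := H.cut
  nbi := H.nbi
  cu2 := H.cu2

theorem exists_XPS {C g γ ζ κ h0 : ℝ} {G : SimpleGraph V} {d : ℕ} {po : V → Fin p}
    {mt : Fin p → Fin p} (c : Ctx C g γ ζ κ h0 G d po mt) (VH : Finset V)
    (hk : 2 * ((VH.card : ℝ) + 3) ≤ d) :
    ∃ X, XP g ζ G d po mt X ∧ ∀ a, Disjoint (X a) VH := by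
  have hbig : ∀ a : Fin p, VH.card + 3 ≤ (pos po a \ Hs ζ G d po mt).card := by
    intro a
    have h1 := c.posL a
    have h2 := c.cardH'
    have h3 := le_card_sdiff (Hs ζ G d po mt) (pos po a)
    have h4 : ((pos po a).card : ℝ) ≤ ((pos po a \ Hs ζ G d po mt).card : ℝ) +
        ((Hs ζ G d po mt).card : ℝ) := by
      have : (pos po a).card ≤ (pos po a \ Hs ζ G d po mt).card + (Hs ζ G d po mt).card := by
        omega
      exact_mod_cast this
    have h5 := c.h0le'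
    have hd := c.dpos
    have h6 : (2 * h0 + κ / 16) * d ≤ 1 / 2 * d := by
      apply mul_le_mul_of_nonneg_right _ hd.le
      linarith [c.hκζ, c.hκ0, c.hζ1]
    have h7 : ((VH.card + 3 : ℕ) : ℝ) ≤ ((pos po a \ Hs ζ G d po mt).card : ℝ) := by
      push_cast
      linarith
    exact_mod_cast h7
  have hsd : ∀ a : Fin p, (pos po a \ Hs ζ G d po mt).card ≤
      ((pos po a \ Hs ζ G d po mt) \ VH).card + VH.card := by
    intro a
    have := le_card_sdiff VH (pos po a \ Hs ζ G d po mt)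
    omega
  have h : ∀ a : Fin p, ∃ Y ⊆ (pos po a \ Hs ζ G d po mt) \ VH,
      (mt a = a → (1 + g) * d < ((pos po a \ Hs ζ G d po mt).card : ℝ) →
        Y.card = (pos po a \ Hs ζ G d po mt).card % 4) ∧
      (mt a = a → ¬ (1 + g) * d < ((pos po a \ Hs ζ G d po mt).card : ℝ) → Y = ∅) ∧
      (mt a ≠ a → Y.card =
        (pos po a \ Hs ζ G d po mt).card - (pos po (mt a) \ Hs ζ G d po mt).card) := by
    intro a
    have ha := hbig a
    have hs := hsd a
    by_cases h1 : mt a = a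
    · by_cases h2 : (1 + g) * d < ((pos po a \ Hs ζ G d po mt).card : ℝ)
      · obtain ⟨Y, hY, hc⟩ := exists_subset_card_eq
          (show (pos po a \ Hs ζ G d po mt).card % 4 ≤
            ((pos po a \ Hs ζ G d po mt) \ VH).card by omega)
        exact ⟨Y, hY, fun _ _ => hc, fun _ h => absurd h2 h, fun h => absurd h1 h⟩
      · exact ⟨∅, empty_subset _, fun _ h => absurd h h2, fun _ _ => rfl, fun h => absurd h1 h⟩
    · have hb := hbig (mt a)
      obtain ⟨Y, hY, hc⟩ := exists_subset_card_eq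
        (show (pos po a \ Hs ζ G d po mt).card - (pos po (mt a) \ Hs ζ G d po mt).card ≤
          ((pos po a \ Hs ζ G d po mt) \ VH).card by omega)
      exact ⟨Y, hY, fun h => absurd h h1, fun h => absurd h h1, fun _ => hc⟩
  choose X h1 h2 h3 h4 using h
  refine ⟨X, ⟨fun a => (h1 a).trans sdiff_subset, h2, h3, h4⟩, fun a => ?_⟩
  exact disjoint_of_subset_left (h1 a) sdiff_disjoint

end

/-- the scales -/
noncomputable def sc (hz : ℝ → ℝ → ℝ) (x : ℝ) : ℕ → ℝ
  | 0 => 1 / 100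
  | j + 1 => hz x (sc hz x j)

section sc
variable {hz ht : ℝ → ℝ → ℝ}

theorem sc_pos (hzt : ∀ x s, 0 < x → 0 < s → 0 < hz x s ∧ hz x s ≤ s / 100 ∧ 0 < ht x s) {x : ℝ}
    (hx : 0 < x) (j : ℕ) : 0 < sc hz x j := by
  induction j with
  | zero =>
    unfold sc
    norm_num
  | succ j ih => exact (hzt x _ hx ih).1

theorem sc_succ (hzt : ∀ x s, 0 < x → 0 < s → 0 < hz x s ∧ hz x s ≤ s / 100 ∧ 0 < ht x s) {x : ℝ}
    (hx : 0 < x) (j : ℕ) : sc hz x (j + 1) ≤ sc hz x j / 100 :=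
  (hzt x _ hx (sc_pos hzt hx j)).2.1

theorem sc_anti (hzt : ∀ x s, 0 < x → 0 < s → 0 < hz x s ∧ hz x s ≤ s / 100 ∧ 0 < ht x s) {x : ℝ}
    (hx : 0 < x) : Antitone (sc hz x) := by
  apply antitone_nat_of_succ_le
  intro j
  have h1 := sc_succ hzt hx j
  have h2 := sc_pos hzt hx j
  linarith

theorem sc_le (hzt : ∀ x s, 0 < x → 0 < s → 0 < hz x s ∧ hz x s ≤ s / 100 ∧ 0 < ht x s) {x : ℝ}
    (hx : 0 < x) (j : ℕ) : sc hz x j ≤ 1 / 100 :=
  sc_anti hzt hx (Nat.zero_le j)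

/-- the gap -/
theorem gap {V : Type u} (hzt : ∀ x s, 0 < x → 0 < s → 0 < hz x s ∧ hz x s ≤ s / 100 ∧ 0 < ht x s)
    {x : ℝ} (hx : 0 < x) (k : ℕ) (VH : Finset V) (hk : VH.card ≤ k) (f : V → ℝ) :
    ∃ i ∈ range (k + 1), ∀ z ∈ VH, sc hz x (2 * i + 1) / 2 < f z → 2 * sc hz x (2 * i) < f z := by
  by_contra hc
  push Not at hc
  have hne : Nonempty V := by
    obtain ⟨z, _⟩ := hc 0 (mem_range.2 (Nat.succ_pos k))
    exact ⟨z⟩
  choose! z hz1 hz2 hz3 using hc
  obtain ⟨i, hi, j, hj, hij, he⟩ := exists_ne_map_eq_of_card_lt_of_maps_to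
    (s := range (k + 1)) (t := VH) (f := z) (by rw [card_range]; omega) hz1
  have key : ∀ i ∈ range (k + 1), ∀ j ∈ range (k + 1), i < j → z i = z j → False := by
    intro i hi j hj hlt he
    have h1 := hz2 i hi
    have h2 := hz3 j hj
    rw [← he] at h2
    have h3 : sc hz x (2 * j) ≤ sc hz x (2 * i + 1 + 1) := sc_anti hzt hx (by omega)
    have h4 := sc_succ hzt hx (2 * i + 1)
    have h5 := sc_pos hzt hx (2 * i + 1)
    linarith
  rcases lt_or_gt_of_ne hij with h | h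
  · exact key i hi j hj h he
  · exact key j hj i hi h he.symm

end sc

/-- the scale of the exceptional set -/
noncomputable def kaps (C : ℝ) (hz ht : ℝ → ℝ → ℝ) (x : ℝ) (i : ℕ) : ℝ :=
  min (ht (x / (16 * C ^ 2)) (sc hz (x / (16 * C ^ 2)) (2 * i)) / (4 * C))
    (min (sc hz (x / (16 * C ^ 2)) (2 * i + 1) / 32) (x / (32 * C)))

/-- the bound for the thin edges -/
noncomputable def hhs (C : ℝ) (hz ht : ℝ → ℝ → ℝ) (k : ℕ) (x : ℝ) : ℝ :=
  (range (k + 1)).inf' ⟨0, mem_range.2 (Nat.succ_pos k)⟩ (fun i =>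
    kaps C hz ht x i * sc hz (x / (16 * C ^ 2)) (2 * i + 1) / (32 * C))

end DECSAux

/-- DECS: decomposition into pieces with a scale gap for the bounded set `VH`. -/
def Stmt_DECS' : Prop :=
  ∀ C g : ℝ, 1 ≤ C → 0 < g → g ≤ 1 / 10 → ∃ M : ℕ, ∀ (k : ℕ) (hz ht : ℝ → ℝ → ℝ),
    (∀ x s, 0 < x → 0 < s → 0 < hz x s ∧ hz x s ≤ s / 100 ∧ 0 < ht x s) →
    ∃ (Rs Sg : Finset ℝ) (d0 : ℕ), (∀ ρ ∈ Rs, 0 < ρ ∧ ρ ≤ 1) ∧ (∀ σ ∈ Sg, 0 < σ ∧ σ ≤ 1 / 100) ∧
    ∀ {V : Type u} [Fintype V] (G : SimpleGraph V) (d : ℕ) (VH : Finset V), d0 ≤ d →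
      (∀ v, (nb G v).card = d) → (Fintype.card V : ℝ) ≤ C * d → VH.card ≤ k →
      ∃ ρ ∈ Rs, ∃ σ ∈ Sg, ∃ P : Pcs V M, DecP C g ρ (hz ρ σ) (ht ρ σ) G d P ∧
        ∀ z ∈ VH, z ∈ P.V0 → P.rg z = none ∧
          (∀ n β, P.ty n = Ty.B → σ * d ≤ ((nb G z \ sV P n β).card : ℝ)) ∧
          ∀ n, P.ty n ≠ Ty.B → σ * d ≤ ((nb G z \ pV P n).card : ℝ)

open DECSAux DEC2Aux

theorem stmt_DECS' (hD1 : Stmt_DEC1.{u}) : Stmt_DECS'.{u} := by
  intro C g hC hg0 hg1
  have hC0 : 0 < C := by linarith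
  refine ⟨⌊3 * C⌋₊, ?_⟩
  intro k hz ht hzt
  have hρ : ∀ x : ℝ, 0 < x → 0 < x / (16 * C ^ 2) := fun x hx => by positivity
  have hs0 : ∀ x, 0 < x → ∀ j, 0 < sc hz (x / (16 * C ^ 2)) j :=
    fun x hx j => sc_pos hzt (hρ x hx) j
  have hk0 : ∀ x, 0 < x → ∀ i, 0 < kaps C hz ht x i := by
    intro x hx i
    have h := hzt _ _ (hρ x hx) (hs0 x hx (2 * i))
    have h2 := hs0 x hx (2 * i + 1)
    unfold kaps
    exact lt_min (div_pos h.2.2 (by linarith)) (lt_min (by linarith) (by positivity))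
  obtain ⟨Gs, hGs, hmain⟩ := hD1 C (hhs C hz ht k) hC (by
    intro x hx
    unfold hhs
    rw [lt_inf'_iff]
    intro i _
    exact div_pos (mul_pos (hk0 x hx i) (hs0 x hx _)) (by linarith))
  -- the bound for d
  obtain ⟨B, hB⟩ := ((Gs ×ˢ range (k + 1)).image
    (fun q => 18 * C / kaps C hz ht q.1 q.2)).exists_le
  obtain ⟨d0, hd0⟩ := exists_nat_ge (max B (max (6 / g) (2 * ((k : ℝ) + 3))))
  refine ⟨insert 1 (Gs.image (fun x => x / (16 * C ^ 2))),
    insert (1 / 100) ((Gs ×ˢ range (k + 1)).image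
      (fun q => sc hz (q.1 / (16 * C ^ 2)) (2 * q.2))), d0, ?_, ?_, ?_⟩
  · intro ρ hr
    rw [mem_insert, mem_image] at hr
    rcases hr with rfl | ⟨x, hx, rfl⟩
    · norm_num
    · have h1 := hGs x hx
      refine ⟨hρ x h1.1, ?_⟩
      rw [div_le_one (by positivity)]
      have h2 : (1 : ℝ) ≤ C ^ 2 := one_le_pow₀ hC
      linarith
  · intro σ hr
    rw [mem_insert, mem_image] at hr
    rcases hr with rfl | ⟨⟨x, i⟩, hx, rfl⟩
    · norm_num
    · rw [mem_product] at hx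
      have h1 := hGs x hx.1
      exact ⟨hs0 x h1.1 _, sc_le hzt (hρ x h1.1) _⟩
  intro V _ G d VH hd hreg hsiz hVH
  rcases isEmpty_or_nonempty V with hV | hV
  · refine ⟨1, mem_insert_self _ _, 1 / 100, mem_insert_self _ _, trivP _ hV, ?_, ?_⟩
    · have := hzt 1 (1 / 100) one_pos (by norm_num)
      exact dec_triv _ hV C g 1 (hz 1 (1 / 100)) (ht 1 (1 / 100)) hC this.2.2 G d
    · intro z
      exact (hV.false z).elim
  have hdr : max B (max (6 / g) (2 * ((k : ℝ) + 3))) ≤ (d : ℝ) :=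
    hd0.trans (by exact_mod_cast hd)
  have hdk : 2 * ((k : ℝ) + 3) ≤ (d : ℝ) :=
    le_trans (le_trans (le_max_right _ _) (le_max_right _ _)) hdr
  have hd1 : (1 : ℝ) ≤ d := by
    have : (0 : ℝ) ≤ k := Nat.cast_nonneg k
    linarith
  have hdp : (0 : ℝ) < d := by linarith
  obtain ⟨γ, hγ, p, po, mt, hP⟩ := hmain G d (by exact_mod_cast hd1) hreg hsiz hV
  have hγ1 := hGs γ hγ
  obtain ⟨i, hi, hgap⟩ := gap hzt (hρ γ hγ1.1) k VH hVH (fun z => (thd G po mt z : ℝ) / d)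
  have hzt1 := hzt _ _ (hρ γ hγ1.1) (hs0 γ hγ1.1 (2 * i))
  have hk := hk0 γ hγ1.1 i
  have hM : p ≤ ⌊3 * C⌋₊ := Nat.le_floor hP.pC
  have hP' : PosP C γ (kaps C hz ht γ i * sc hz (γ / (16 * C ^ 2)) (2 * i + 1) / (32 * C))
      G d po mt := posP_mono hP (by
    unfold hhs
    exact inf'_le _ hi)
  have c : Ctx C g γ (sc hz (γ / (16 * C ^ 2)) (2 * i + 1)) (kaps C hz ht γ i)
      (kaps C hz ht γ i * sc hz (γ / (16 * C ^ 2)) (2 * i + 1) / (32 * C)) G d po mt :=
    { hC := hC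
      hg0 := hg0
      hg1 := hg1
      hγ0 := hγ1.1
      hγ1 := hγ1.2
      hζ0 := hs0 γ hγ1.1 _
      hζ1 := sc_le hzt (hρ γ hγ1.1) _
      hκ0 := hk
      hκζ := (min_le_right _ _).trans (min_le_left _ _)
      hκγ := by
        have h1 : kaps C hz ht γ i ≤ γ / (32 * C) := (min_le_right _ _).trans (min_le_right _ _)
        rw [le_div_iff₀ (by linarith)] at h1
        linarith
      hh := rfl
      hd := by
        have h1 : 18 * C / kaps C hz ht γ i ≤ B :=
          hB _ (mem_image.2 ⟨(γ, i), mem_product.2 ⟨hγ, hi⟩, rfl⟩)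
        have h2 : 18 * C / kaps C hz ht γ i ≤ d := h1.trans (le_trans (le_max_left _ _) hdr)
        rw [div_le_iff₀ hk] at h2
        linarith
      hgd := by
        have h2 : 6 / g ≤ d := le_trans (le_trans (le_max_left _ _) (le_max_right _ _)) hdr
        rw [div_le_iff₀ hg0] at h2
        linarith
      P := hP'
      reg := hreg
      siz := hsiz }
  obtain ⟨X, x, hX⟩ := exists_XPS c VH (by
    have : (VH.card : ℝ) ≤ k := by exact_mod_cast hVH
    linarith)
  refine ⟨γ / (16 * C ^ 2), mem_insert_of_mem (mem_image_of_mem _ hγ),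
    sc hz (γ / (16 * C ^ 2)) (2 * i),
    mem_insert_of_mem (mem_image.2 ⟨(γ, i), mem_product.2 ⟨hγ, hi⟩, rfl⟩), _,
    decP hM c x ?_, ?_⟩
  · have h1 : kaps C hz ht γ i ≤ ht (γ / (16 * C ^ 2)) (sc hz (γ / (16 * C ^ 2)) (2 * i)) /
      (4 * C) := min_le_left _ _
    rw [le_div_iff₀ (by linarith)] at h1
    linarith
  · intro z hz0 hz1
    have hnX : z ∉ X (po z) := fun h => disjoint_left.1 (hX (po z)) h hz0
    have hH : z ∈ Hs (sc hz (γ / (16 * C ^ 2)) (2 * i + 1)) G d po mt :=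
      ((mem_V0s x z).1 hz1).resolve_right hnX
    have hb : ∀ b : Fin p, sc hz (γ / (16 * C ^ 2)) (2 * i) * d ≤ ((nb G z \ (pos po b \
          V0s (sc hz (γ / (16 * C ^ 2)) (2 * i + 1)) G d po mt X)).card : ℝ) := by
      intro b
      rw [mem_Hs] at hH
      have h1 : sc hz (γ / (16 * C ^ 2)) (2 * i + 1) / 2 < (thd G po mt z : ℝ) / d := by
        rw [lt_div_iff₀ hdp]
        exact hH
      have h2 := hgap z hz0 h1
      rw [lt_div_iff₀ hdp] at h2
      have h3 := c.mov z b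
      have h4 : (nb G z).card ≤ (nb G z \ (pos po b \
          V0s (sc hz (γ / (16 * C ^ 2)) (2 * i + 1)) G d po mt X)).card +
          (nb G z ∩ pos po b).card := by
        rw [← card_sdiff_add_card_inter (nb G z) (pos po b)]
        apply Nat.add_le_add_right
        apply card_le_card
        intro w hw
        rw [mem_sdiff] at hw
        rw [mem_sdiff, mem_sdiff]
        exact ⟨hw.1, fun h => hw.2 h.1⟩
      rw [c.reg] at h4
      have h5 : (thd G po mt z : ℝ) ≤ ((nb G z \ (pos po b \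
          V0s (sc hz (γ / (16 * C ^ 2)) (2 * i + 1)) G d po mt X)).card : ℝ) := by
        have : thd G po mt z ≤ (nb G z \ (pos po b \
          V0s (sc hz (γ / (16 * C ^ 2)) (2 * i + 1)) G d po mt X)).card := by omega
        exact_mod_cast this
      have h6 := hs0 γ hγ1.1 (2 * i)
      have h7 : 0 < sc hz (γ / (16 * C ^ 2)) (2 * i) * d := mul_pos h6 hdp
      have h8 : sc hz (γ / (16 * C ^ 2)) (2 * i) * d ≤ (thd G po mt z : ℝ) := by linarith
      exact h8.trans h5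
    refine ⟨?_, ?_, ?_⟩
    · show (if z ∈ X (po z) ∧ mt (po z) ≠ po z then
        some (rep mt hM (po z), decide (po z < mt (po z))) else none) = none
      rw [if_neg (fun h => hnX h.1)]
    · intro n β hn
      obtain ⟨a, ha, rfl⟩ := ty_B' hM n hn
      rw [sV_two hM c.P.inv a ha]
      exact hb _
    · intro n hn
      by_cases hE : tyD g (sc hz (γ / (16 * C ^ 2)) (2 * i + 1)) G d po mt n = Ty.E
      · have he : pV (mkP g (sc hz (γ / (16 * C ^ 2)) (2 * i + 1)) G d po mt X hM) n = ∅ := by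
          rw [eq_empty_iff_forall_notMem]
          intro v hv
          unfold pV at hv
          rw [mem_filter] at hv
          have h1 : rep mt hM (po v) = n := hv.2.2
          exact ty_E (g := g) (ζ := sc hz (γ / (16 * C ^ 2)) (2 * i + 1)) (G := G) (d := d)
            (po := po) c.P.inv hM (po v) (h1 ▸ hE)
        have key : sc hz (γ / (16 * C ^ 2)) (2 * i) * d ≤ ((nb G z \
            pV (mkP g (sc hz (γ / (16 * C ^ 2)) (2 * i + 1)) G d po mt X hM) n).card : ℝ) := by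
          rw [he, sdiff_empty, c.reg]
          have h6 := sc_le hzt (hρ γ hγ1.1) (2 * i)
          nlinarith
        exact key
      · obtain ⟨a, ha, rfl⟩ := ty_ex hM n hE
        have h1 : mt a = a := by
          by_contra h1
          exact hn ((ty_B c.P.inv hM a).2 h1)
        rw [pV_one hM c.P.inv a h1]
        exact hb _

/-- DECS, official form -/
theorem stmt_DECS2 : Stmt_DECS2.{u} := by
  intro h C g hC h0 h1
  exact stmt_DECS' h C g hC h0 h1

end Pool.Agent.Work.MP_db9399_da.helper55
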