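import Pool.Agent.Work.MP_db9399_da.Frame

/-!
# MP_db9399, DENSE-ALL, block DEC1: the minimiser (helper55)
-/

set_option autoImplicit false

namespace Pool.Agent.Work.MP_db9399_da.helper55

open Finset Classical
open Pool.Agent.Work.MP_db9399_all (nb)

universe u

namespace DEC1Aux

section
variable {V : Type u} [Fintype V]

theorem mem_nb (G : SimpleGraph V) (v w : V) : w ∈ nb G v ↔ G.Adj v w := by
  simp [nb]

/-- ordered adjacent pairs with the property `P` -/
noncomputable def prs (G : SimpleGraph V) (P : V → V → Prop) : Finset (V × V) :=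
  (univ : Finset (V × V)).filter (fun q => G.Adj q.1 q.2 ∧ P q.1 q.2)

theorem mem_prs (G : SimpleGraph V) (P : V → V → Prop) (q : V × V) :
    q ∈ prs G P ↔ G.Adj q.1 q.2 ∧ P q.1 q.2 := by
  simp [prs]

/-- their number -/
noncomputable def pr (G : SimpleGraph V) (P : V → V → Prop) : ℕ := (prs G P).card

/-- neighbours with the property `P` -/
noncomputable def nbp (G : SimpleGraph V) (P : V → V → Prop) (v : V) : Finset V :=
  (nb G v).filter (fun w => P v w)

theorem mem_nbp (G : SimpleGraph V) (P : V → V → Prop) (v w : V) :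
    w ∈ nbp G P v ↔ G.Adj v w ∧ P v w := by
  simp [nbp, nb]

theorem pr_sum (G : SimpleGraph V) (P : V → V → Prop) :
    pr G P = ∑ v, (nbp G P v).card := by
  unfold pr prs nbp nb
  rw [card_filter, Fintype.sum_prod_type]
  refine sum_congr rfl (fun v _ => ?_)
  rw [filter_filter, card_filter]

theorem pr_mono (G : SimpleGraph V) (P Q : V → V → Prop)
    (h : ∀ v w, G.Adj v w → P v w → Q v w) : pr G P ≤ pr G Q := by
  unfold pr
  apply card_le_card
  intro q hq
  rw [mem_prs] at hq ⊢
  exact ⟨hq.1, h _ _ hq.1 hq.2⟩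

theorem pr_or (G : SimpleGraph V) (P Q : V → V → Prop) :
    pr G (fun v w => P v w ∨ Q v w) ≤ pr G P + pr G Q := by
  unfold pr
  refine le_trans (card_le_card ?_) (card_union_le _ _)
  intro q hq
  rw [mem_prs] at hq
  rw [mem_union, mem_prs, mem_prs]
  rcases hq.2 with h | h
  · exact Or.inl ⟨hq.1, h⟩
  · exact Or.inr ⟨hq.1, h⟩

theorem pr_disj (G : SimpleGraph V) (P Q R : V → V → Prop)
    (h : ∀ v w, G.Adj v w → (R v w ↔ P v w ∨ Q v w)) (hd : ∀ v w, G.Adj v w → P v w → ¬ Q v w) :
    pr G R = pr G P + pr G Q := by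
  unfold pr
  rw [← card_union_of_disjoint]
  · congr 1
    ext q
    rw [mem_union, mem_prs, mem_prs, mem_prs]
    constructor
    · rintro ⟨h1, h2⟩
      rcases (h _ _ h1).1 h2 with h' | h'
      · exact Or.inl ⟨h1, h'⟩
      · exact Or.inr ⟨h1, h'⟩
    · rintro (h' | h')
      · exact ⟨h'.1, (h _ _ h'.1).2 (Or.inl h'.2)⟩
      · exact ⟨h'.1, (h _ _ h'.1).2 (Or.inr h'.2)⟩
  · rw [disjoint_left]
    intro q hq hq'
    rw [mem_prs] at hq hq'
    exact hd _ _ hq.1 hq.2 hq'.2

theorem pr_swap (G : SimpleGraph V) (P : V → V → Prop) :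
    pr G (fun v w => P w v) = pr G P := by
  unfold pr
  apply card_bij (fun q _ => (q.2, q.1))
  · intro q hq
    rw [mem_prs] at hq ⊢
    exact ⟨hq.1.symm, hq.2⟩
  · intro q _ q' _ h
    rw [Prod.mk.injEq] at h
    exact Prod.ext h.2 h.1
  · intro q hq
    rw [mem_prs] at hq
    exact ⟨(q.2, q.1), by rw [mem_prs]; exact ⟨hq.1.symm, hq.2⟩, rfl⟩

theorem pr_true (G : SimpleGraph V) (P : V → V → Prop) (h : ∀ v w, G.Adj v w → P v w) :
    pr G P = ∑ v, (nb G v).card := by
  rw [pr_sum]
  refine sum_congr rfl (fun v _ => ?_)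
  congr 1
  ext w
  rw [mem_nbp, mem_nb]
  exact ⟨fun h' => h'.1, fun h' => ⟨h', h _ _ h'⟩⟩

theorem pr_add_not (G : SimpleGraph V) (P : V → V → Prop) :
    pr G P + pr G (fun v w => ¬ P v w) = ∑ v, (nb G v).card := by
  rw [← pr_true G (fun _ _ => True) (fun _ _ _ => trivial)]
  symm
  apply pr_disj
  · intro v w _
    exact ⟨fun _ => Classical.em _, fun _ => trivial⟩
  · intro v w _ h1 h2
    exact h2 h1

theorem eb_pr (G : SimpleGraph V) (A B : Finset V) :
    eb G A B = pr G (fun v w => v ∈ A ∧ w ∈ B) := by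
  rw [pr_sum]
  unfold eb
  have h0 : ∀ v, (nbp G (fun v w => v ∈ A ∧ w ∈ B) v).card =
      if v ∈ A then (nb G v ∩ B).card else 0 := by
    intro v
    by_cases hv : v ∈ A
    · rw [if_pos hv]
      congr 1
      ext w
      rw [mem_inter, mem_nbp, mem_nb]
      exact ⟨fun h => ⟨h.1, h.2.2⟩, fun h => ⟨h.1, hv, h.2⟩⟩
    · rw [if_neg hv, card_eq_zero, eq_empty_iff_forall_notMem]
      intro w hw
      rw [mem_nbp] at hw
      exact hv hw.2.1
  rw [sum_congr rfl (fun v _ => h0 v), sum_ite_mem, univ_inter]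

variable {ι : Type} [Fintype ι]

/-- number of bulk pairs -/
noncomputable def bc (G : SimpleGraph V) (po : V → ι) (mt : ι → ι) : ℕ :=
  pr G (fun v w => po w = mt (po v))

/-- the position -/
noncomputable def ps (po : V → ι) (a : ι) : Finset V := univ.filter (fun v => po v = a)

theorem mem_ps (po : V → ι) (a : ι) (v : V) : v ∈ ps po a ↔ po v = a := by
  simp [ps]

/-- valid structures -/
structure Val (d : ℕ) (po : V → ι) (mt : ι → ι) : Prop where
  inv : ∀ a, mt (mt a) = a
  big : ∀ a, d ≤ 3 * (ps po a).card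

theorem Val.card_le {d : ℕ} {po : V → ι} {mt : ι → ι} (h : Val d po mt) :
    Fintype.card ι * d ≤ 3 * Fintype.card V := by
  have h1 : Fintype.card V = ∑ a : ι, (ps po a).card := by
    unfold ps
    rw [← card_univ]
    exact card_eq_sum_card_fiberwise (fun v _ => mem_coe.2 (mem_univ _))
  rw [h1, mul_sum, ← smul_eq_mul, ← card_univ, ← sum_const]
  exact sum_le_sum (fun a _ => h.big a)

theorem exists_max (G : SimpleGraph V) (d : ℕ) (hd : 1 ≤ d) (hV : d ≤ 3 * Fintype.card V)
    (w : ℝ) :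
    ∃ (p : ℕ) (po : V → Fin p) (mt : Fin p → Fin p), Val d po mt ∧
      ∀ (ι : Type) [Fintype ι] (po' : V → ι) (mt' : ι → ι), Val d po' mt' →
        (bc G po' mt' : ℝ) + w * Fintype.card ι ≤ bc G po mt + w * p := by
  obtain ⟨t, ht, hmax⟩ := Set.exists_max_image
    {t : (p : Fin (3 * Fintype.card V + 1)) × ((V → Fin p) × (Fin p → Fin p)) |
      Val d t.2.1 t.2.2}
    (fun t => (bc G t.2.1 t.2.2 : ℝ) + w * (t.1 : ℕ)) (Set.toFinite _)
    ⟨⟨⟨1, by omega⟩, fun _ => (0 : Fin 1), id⟩, by
      refine ⟨fun a => rfl, fun a => ?_⟩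
      have : ps (fun _ : V => (0 : Fin 1)) a = univ := by
        ext v
        rw [mem_ps]
        simp [Subsingleton.elim a 0]
      show d ≤ 3 * (ps (fun _ : V => (0 : Fin 1)) a).card
      rw [this, card_univ]
      exact hV⟩
  refine ⟨t.1, t.2.1, t.2.2, ht, ?_⟩
  intro ι _ po' mt' hv
  have hc := hv.card_le
  have hc2 : Fintype.card ι < 3 * Fintype.card V + 1 := by
    have := Nat.mul_le_mul_left (Fintype.card ι) hd
    omega
  have e : ι ≃ Fin (Fintype.card ι) := Fintype.equivFin ι
  have hval : Val d (fun v => e (po' v)) (fun a => e (mt' (e.symm a))) := by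
    refine ⟨fun a => ?_, fun a => ?_⟩
    · simp [hv.inv]
    · have : ps (fun v => e (po' v)) a = ps po' (e.symm a) := by
        ext v
        rw [mem_ps, mem_ps, Equiv.eq_symm_apply]
      rw [this]
      exact hv.big _
  have hb : bc G (fun v => e (po' v)) (fun a => e (mt' (e.symm a))) = bc G po' mt' := by
    unfold bc
    congr 1
    ext v w
    simp
  have := hmax ⟨⟨Fintype.card ι, hc2⟩, fun v => e (po' v), fun a => e (mt' (e.symm a))⟩ hval
  have h2 : (bc G (fun v => e (po' v)) (fun a => e (mt' (e.symm a))) : ℝ) +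
      w * (Fintype.card ι : ℕ) ≤ bc G t.2.1 t.2.2 + w * (t.1 : ℕ) := this
  rw [hb] at h2
  exact h2

/-- splitting one position -/
noncomputable def sp1 (po : V → ι) (a : ι) (S : Finset V) : V → Option ι :=
  fun v => if po v = a ∧ v ∉ S then none else some (po v)

theorem sp1_val {d : ℕ} {po : V → ι} {mt : ι → ι} (h : Val d po mt) (a : ι) (S : Finset V)
    (hS : S ⊆ ps po a) (h1 : d ≤ 3 * S.card) (h2 : d ≤ 3 * (ps po a \ S).card)
    (mt' : Option ι → Option ι) (hi : ∀ x, mt' (mt' x) = x) : Val d (sp1 po a S) mt' := by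
  refine ⟨hi, fun x => ?_⟩
  rcases x with _ | b
  · refine le_trans h2 (Nat.mul_le_mul_left 3 (card_le_card ?_))
    intro v hv
    rw [mem_sdiff, mem_ps] at hv
    rw [mem_ps]
    unfold sp1
    rw [if_pos hv]
  · by_cases hb : b = a
    · subst hb
      refine le_trans h1 (Nat.mul_le_mul_left 3 (card_le_card ?_))
      intro v hv
      have hv' := (mem_ps po b v).1 (hS hv)
      rw [mem_ps]
      unfold sp1
      rw [if_neg (fun h => h.2 hv), hv']
    · refine le_trans (h.big b) (Nat.mul_le_mul_left 3 (card_le_card ?_))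
      intro v hv
      rw [mem_ps] at hv
      rw [mem_ps]
      unfold sp1
      rw [if_neg (fun h => hb (hv ▸ h.1)), hv]

theorem cut_ineq (G : SimpleGraph V) {d : ℕ} {po : V → ι} {mt : ι → ι} (h : Val d po mt) (a : ι)
    (ha : mt a = a) (S : Finset V) (hS : S ⊆ ps po a) :
    bc G po mt ≤ bc G (sp1 po a S) (Option.map mt) + 2 * eb G S (ps po a \ S) := by
  have hsw : eb G (ps po a \ S) S = eb G S (ps po a \ S) := by
    rw [eb_pr, eb_pr, ← pr_swap]
    congr 1
    ext v w
    exact and_comm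
  rw [two_mul]
  nth_rewrite 2 [← hsw]
  rw [eb_pr, eb_pr]
  unfold bc
  refine le_trans (pr_mono G _ (fun v w => (sp1 po a S w = Option.map mt (sp1 po a S v)) ∨
    ((v ∈ S ∧ w ∈ ps po a \ S) ∨ (v ∈ ps po a \ S ∧ w ∈ S))) ?_)
    (le_trans (pr_or G _ _) (Nat.add_le_add_left (pr_or G _ _) _))
  intro v w _ hvw
  by_cases hv : po v = a
  · have hw : po w = a := by rw [hvw, hv, ha]
    by_cases hvS : v ∈ S <;> by_cases hwS : w ∈ S
    · left
      simp [sp1, hvS, hwS, hv, hw, ha]
    · right; left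
      exact ⟨hvS, by rw [mem_sdiff, mem_ps]; exact ⟨hw, hwS⟩⟩
    · right; right
      exact ⟨by rw [mem_sdiff, mem_ps]; exact ⟨hv, hvS⟩, hwS⟩
    · left
      simp [sp1, hvS, hwS, hv, hw]
  · have hw : po w ≠ a := by
      intro hw
      apply hv
      rw [← h.inv (po v), ← hvw, hw, ha]
    left
    have hmv : mt (po v) ≠ a := hvw ▸ hw
    simp [sp1, hv, hvw, hmv]

/-- exchanging the two halves -/
noncomputable def mtx (mt : ι → ι) (a : ι) : Option ι → Option ι
  | none => some a
  | some b => if b = a then none else some (mt b)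

theorem mtx_inv {d : ℕ} {po : V → ι} {mt : ι → ι} (h : Val d po mt) (a : ι) (ha : mt a = a)
    (x : Option ι) : mtx mt a (mtx mt a x) = x := by
  rcases x with _ | b
  · simp [mtx]
  · by_cases hb : b = a
    · simp [mtx, hb]
    · have : mt b ≠ a := by
        intro h'
        apply hb
        rw [← h.inv b, h', ha]
      simp [mtx, hb, this, h.inv]

theorem nbi_ineq (G : SimpleGraph V) {d : ℕ} {po : V → ι} {mt : ι → ι} (h : Val d po mt) (a : ι)
    (ha : mt a = a) (S : Finset V) (hS : S ⊆ ps po a) :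
    bc G po mt ≤ bc G (sp1 po a S) (mtx mt a) + (eb G S S + eb G (ps po a \ S) (ps po a \ S)) := by
  rw [eb_pr, eb_pr]
  unfold bc
  refine le_trans (pr_mono G _ (fun v w => (sp1 po a S w = mtx mt a (sp1 po a S v)) ∨
    ((v ∈ S ∧ w ∈ S) ∨ (v ∈ ps po a \ S ∧ w ∈ ps po a \ S))) ?_)
    (le_trans (pr_or G _ _) (Nat.add_le_add_left (pr_or G _ _) _))
  intro v w _ hvw
  by_cases hv : po v = a
  · have hw : po w = a := by rw [hvw, hv, ha]
    by_cases hvS : v ∈ S <;> by_cases hwS : w ∈ S
    · right; left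
      exact ⟨hvS, hwS⟩
    · left
      simp [sp1, mtx, hvS, hwS, hv, hw]
    · left
      simp [sp1, mtx, hvS, hwS, hv, hw]
    · right; right
      exact ⟨by rw [mem_sdiff, mem_ps]; exact ⟨hv, hvS⟩,
        by rw [mem_sdiff, mem_ps]; exact ⟨hw, hwS⟩⟩
  · have hw : po w ≠ a := by
      intro hw
      apply hv
      rw [← h.inv (po v), ← hvw, hw, ha]
    left
    have hmv : mt (po v) ≠ a := hvw ▸ hw
    simp [sp1, mtx, hv, hvw, hmv]

/-- splitting a position and its mate -/
noncomputable def sp2 (po : V → ι) (a a' : ι) (S T : Finset V) : V → ι ⊕ Bool :=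
  fun v => if po v = a ∧ v ∉ S then Sum.inr false else
    if po v = a' ∧ v ∉ T then Sum.inr true else Sum.inl (po v)

/-- mates after the splitting -/
def mt2 (mt : ι → ι) : ι ⊕ Bool → ι ⊕ Bool := Sum.map mt not

theorem sp2_val {d : ℕ} {po : V → ι} {mt : ι → ι} (h : Val d po mt) (a a' : ι) (haa : a ≠ a')
    (S T : Finset V)
    (hS : S ⊆ ps po a) (hT : T ⊆ ps po a') (h1 : d ≤ 3 * S.card)
    (h2 : d ≤ 3 * (ps po a \ S).card)
    (h3 : d ≤ 3 * T.card) (h4 : d ≤ 3 * (ps po a' \ T).card) :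
    Val d (sp2 po a a' S T) (mt2 mt) := by
  refine ⟨fun x => ?_, fun x => ?_⟩
  · rcases x with b | b
    · simp [mt2, h.inv]
    · simp [mt2]
  · rcases x with b | b
    · by_cases hb : b = a
      · subst hb
        refine le_trans h1 (Nat.mul_le_mul_left 3 (card_le_card ?_))
        intro v hv
        have hv' := (mem_ps po b v).1 (hS hv)
        rw [mem_ps]
        unfold sp2
        rw [if_neg (fun h => h.2 hv), if_neg (fun h => haa (hv' ▸ h.1)), hv']
      · by_cases hb' : b = a'
        · subst hb'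
          refine le_trans h3 (Nat.mul_le_mul_left 3 (card_le_card ?_))
          intro v hv
          have hv' := (mem_ps po b v).1 (hT hv)
          rw [mem_ps]
          unfold sp2
          rw [if_neg (fun h => haa ((hv' ▸ h.1).symm)), if_neg (fun h => h.2 hv), hv']
        · refine le_trans (h.big b) (Nat.mul_le_mul_left 3 (card_le_card ?_))
          intro v hv
          rw [mem_ps] at hv
          rw [mem_ps]
          unfold sp2
          rw [if_neg (fun h => hb (hv ▸ h.1)), if_neg (fun h => hb' (hv ▸ h.1)), hv]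
    · rcases b with _ | _
      · refine le_trans h2 (Nat.mul_le_mul_left 3 (card_le_card ?_))
        intro v hv
        rw [mem_sdiff, mem_ps] at hv
        rw [mem_ps]
        unfold sp2
        rw [if_pos hv]
      · refine le_trans h4 (Nat.mul_le_mul_left 3 (card_le_card ?_))
        intro v hv
        rw [mem_sdiff, mem_ps] at hv
        rw [mem_ps]
        unfold sp2
        rw [if_neg (fun h => haa (h.1.symm.trans hv.1)), if_pos hv]

theorem cu2_ineq (G : SimpleGraph V) {d : ℕ} {po : V → ι} {mt : ι → ι} (h : Val d po mt) (a : ι)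
    (ha : mt a ≠ a) (S T : Finset V) :
    bc G po mt ≤ bc G (sp2 po a (mt a) S T) (mt2 mt) +
      2 * (eb G S (ps po (mt a) \ T) + eb G (ps po a \ S) T) := by
  have hsw : ∀ A B : Finset V, eb G A B = eb G B A := by
    intro A B
    rw [eb_pr, eb_pr, ← pr_swap]
    congr 1
    ext v w
    exact and_comm
  have h2 : 2 * (eb G S (ps po (mt a) \ T) + eb G (ps po a \ S) T) =
      (eb G S (ps po (mt a) \ T) + eb G (ps po a \ S) T) +
        (eb G (ps po (mt a) \ T) S + eb G T (ps po a \ S)) := by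
    rw [hsw (ps po (mt a) \ T) S, hsw T (ps po a \ S)]
    ring
  rw [h2, eb_pr, eb_pr, eb_pr, eb_pr]
  unfold bc
  refine le_trans (pr_mono G _ (fun v w => (sp2 po a (mt a) S T w = mt2 mt (sp2 po a (mt a) S T v)) ∨
    (((v ∈ S ∧ w ∈ ps po (mt a) \ T) ∨ (v ∈ ps po a \ S ∧ w ∈ T)) ∨
      ((v ∈ ps po (mt a) \ T ∧ w ∈ S) ∨ (v ∈ T ∧ w ∈ ps po a \ S)))) ?_)
    (le_trans (pr_or G _ _) (Nat.add_le_add_left (le_trans (pr_or G _ _)
      (Nat.add_le_add (pr_or G _ _) (pr_or G _ _))) _))
  intro v w _ hvw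
  have ha' : a ≠ mt a := fun h => ha h.symm
  by_cases hv : po v = a
  · have hw : po w = mt a := by rw [hvw, hv]
    by_cases hvS : v ∈ S <;> by_cases hwT : w ∈ T
    · left
      simp [sp2, mt2, hvS, hwT, hv, hw, ha, ha']
    · right; left; left
      exact ⟨hvS, by rw [mem_sdiff, mem_ps]; exact ⟨hw, hwT⟩⟩
    · right; left; right
      exact ⟨by rw [mem_sdiff, mem_ps]; exact ⟨hv, hvS⟩, hwT⟩
    · left
      simp [sp2, mt2, hvS, hwT, hv, hw, ha]
  · by_cases hv2 : po v = mt a
    · have hw : po w = a := by rw [hvw, hv2, h.inv]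
      by_cases hvT : v ∈ T <;> by_cases hwS : w ∈ S
      · left
        simp [sp2, mt2, hvT, hwS, hv2, hw, ha, ha', h.inv]
      · right; right; right
        exact ⟨hvT, by rw [mem_sdiff, mem_ps]; exact ⟨hw, hwS⟩⟩
      · right; right; left
        exact ⟨by rw [mem_sdiff, mem_ps]; exact ⟨hv2, hvT⟩, hwS⟩
      · left
        simp [sp2, mt2, hvT, hwS, hv2, hw, ha]
    · have hw1 : mt (po v) ≠ a := by
        intro h'
        apply hv2
        rw [← h', h.inv]
      have hw2 : mt (po v) ≠ mt a := by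
        intro h'
        apply hv
        rw [← h.inv (po v), h', h.inv]
      left
      simp [sp2, mt2, hv, hv2, hvw, hw1, hw2]

/-- moving one vertex -/
theorem mov_ineq (G : SimpleGraph V) {d : ℕ} {po : V → ι} {mt : ι → ι} (h : Val d po mt) (v : V)
    (a : ι) :
    bc G po mt + 2 * (nb G v ∩ ps po (mt a)).card ≤
      bc G (Function.update po v a) mt + 2 * (nb G v ∩ ps po (mt (po v))).card := by
  -- pairs without `v`
  set N : ℕ := pr G (fun x y => (x ≠ v ∧ y ≠ v) ∧ po y = mt (po x)) with hN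
  have key : ∀ po' : V → ι, (∀ x, x ≠ v → po' x = po x) →
      bc G po' mt = N + 2 * (nb G v ∩ ps po (mt (po' v))).card := by
    intro po' hpo
    have e1 : bc G po' mt = pr G (fun x y => (x ≠ v ∧ y ≠ v) ∧ po' y = mt (po' x)) +
        (pr G (fun x y => x = v ∧ po' y = mt (po' x)) +
          pr G (fun x y => y = v ∧ po' y = mt (po' x))) := by
      unfold bc
      rw [← pr_disj G (fun x y => x = v ∧ po' y = mt (po' x)) (fun x y => y = v ∧ po' y = mt (po' x))
        (fun x y => (x = v ∨ y = v) ∧ po' y = mt (po' x))]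
      · apply pr_disj
        · intro x y _
          constructor
          · intro h'
            by_cases hx : x = v
            · exact Or.inr ⟨Or.inl hx, h'⟩
            · by_cases hy : y = v
              · exact Or.inr ⟨Or.inr hy, h'⟩
              · exact Or.inl ⟨⟨hx, hy⟩, h'⟩
          · rintro (h' | h')
            · exact h'.2
            · exact h'.2
        · rintro x y _ ⟨⟨h1, h2⟩, _⟩ ⟨h3, _⟩
          rcases h3 with h3 | h3
          · exact h1 h3
          · exact h2 h3
      · intro x y _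
        constructor
        · rintro ⟨h1 | h1, h2⟩
          · exact Or.inl ⟨h1, h2⟩
          · exact Or.inr ⟨h1, h2⟩
        · rintro (h' | h')
          · exact ⟨Or.inl h'.1, h'.2⟩
          · exact ⟨Or.inr h'.1, h'.2⟩
      · rintro x y hxy ⟨h1, _⟩ ⟨h2, _⟩
        rw [h1, h2] at hxy
        exact G.loopless.irrefl v hxy
    have e2 : pr G (fun x y => (x ≠ v ∧ y ≠ v) ∧ po' y = mt (po' x)) = N := by
      rw [hN]
      apply le_antisymm
      · apply pr_mono
        rintro x y _ ⟨⟨h1, h2⟩, h3⟩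
        rw [hpo x h1, hpo y h2] at h3
        exact ⟨⟨h1, h2⟩, h3⟩
      · apply pr_mono
        rintro x y _ ⟨⟨h1, h2⟩, h3⟩
        refine ⟨⟨h1, h2⟩, ?_⟩
        rw [hpo x h1, hpo y h2]
        exact h3
    have e3 : pr G (fun x y => y = v ∧ po' y = mt (po' x)) =
        pr G (fun x y => x = v ∧ po' y = mt (po' x)) := by
      rw [← pr_swap]
      apply le_antisymm
      · apply pr_mono
        rintro x y _ ⟨h1, h2⟩
        exact ⟨h1, by rw [h2, h.inv]⟩
      · apply pr_mono
        rintro x y _ ⟨h1, h2⟩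
        exact ⟨h1, by rw [h2, h.inv]⟩
    have e4 : pr G (fun x y => x = v ∧ po' y = mt (po' x)) =
        (nb G v ∩ ps po (mt (po' v))).card := by
      unfold pr
      apply card_bij (fun q _ => q.2)
      · intro q hq
        rw [mem_prs] at hq
        rw [mem_inter, mem_ps, mem_nb]
        obtain ⟨h1, h2, h3⟩ := hq
        rw [h2] at h1 h3
        refine ⟨h1, ?_⟩
        rw [← hpo q.2 (fun h' => G.loopless.irrefl v (h' ▸ h1))]
        exact h3
      · intro q hq q' hq' h'
        rw [mem_prs] at hq hq'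
        exact Prod.ext (hq.2.1.trans hq'.2.1.symm) h'
      · intro y hy
        rw [mem_inter, mem_ps, mem_nb] at hy
        refine ⟨(v, y), ?_, rfl⟩
        rw [mem_prs]
        refine ⟨hy.1, rfl, ?_⟩
        show po' y = mt (po' v)
        rw [hpo y (fun h' => G.loopless.irrefl v (h' ▸ hy.1)), hy.2]
    rw [e1, e2, e3, e4]
    ring
  rw [key po (fun _ _ => rfl), key (Function.update po v a) (fun x hx => by
    rw [Function.update_of_ne hx]), Function.update_self]
  omega

theorem mov_val {d : ℕ} {po : V → ι} {mt : ι → ι} (h : Val d po mt) (v : V) (a : ι)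
    (hv : d + 3 ≤ 3 * (ps po (po v)).card) : Val d (Function.update po v a) mt := by
  refine ⟨h.inv, fun b => ?_⟩
  by_cases hb : b = po v
  · subst hb
    have h1 : (ps po (po v)).erase v ⊆ ps (Function.update po v a) (po v) := by
      intro x hx
      rw [mem_erase, mem_ps] at hx
      rw [mem_ps, Function.update_of_ne hx.1]
      exact hx.2
    have h2 := card_le_card h1
    rw [card_erase_of_mem ((mem_ps _ _ _).2 rfl)] at h2
    omega
  · refine le_trans (h.big b) (Nat.mul_le_mul_left 3 (card_le_card ?_))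
    intro x hx
    rw [mem_ps] at hx
    have hxv : x ≠ v := by
      intro h'
      rw [h'] at hx
      exact hb hx.symm
    rw [mem_ps, Function.update_of_ne hxv]
    exact hx

end

/-- the scales -/
noncomputable def gs (h : ℝ → ℝ) (P0 : ℕ) : ℕ → ℝ
  | 0 => 1 / 100
  | i + 1 => min (gs h P0 i / 2) (h (gs h P0 i) / (2 * P0))

theorem gs_pos (h : ℝ → ℝ) (hh : ∀ x, 0 < x → 0 < h x) (P0 : ℕ) (hP : 1 ≤ P0) (i : ℕ) :
    0 < gs h P0 i := by
  induction i with
  | zero => simp [gs]
  | succ i ih =>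
    have hP' : (0 : ℝ) < P0 := by exact_mod_cast hP
    exact lt_min (by linarith) (div_pos (hh _ ih) (by linarith))

theorem gs_lt (h : ℝ → ℝ) (hh : ∀ x, 0 < x → 0 < h x) (P0 : ℕ) (hP : 1 ≤ P0) (i : ℕ) :
    gs h P0 (i + 1) < gs h P0 i := by
  have h1 := gs_pos h hh P0 hP i
  have h2 : gs h P0 (i + 1) ≤ gs h P0 i / 2 := min_le_left _ _
  linarith

theorem gs_le (h : ℝ → ℝ) (hh : ∀ x, 0 < x → 0 < h x) (P0 : ℕ) (hP : 1 ≤ P0) (i : ℕ) :
    gs h P0 i ≤ 1 / 100 := by
  induction i with
  | zero => exact le_rfl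
  | succ i ih => exact le_trans (gs_lt h hh P0 hP i).le ih

theorem gs_h (h : ℝ → ℝ) (P0 : ℕ) (hP : 1 ≤ P0) (i : ℕ) :
    2 * gs h P0 (i + 1) * P0 ≤ h (gs h P0 i) := by
  have h2 : gs h P0 (i + 1) ≤ h (gs h P0 i) / (2 * P0) := min_le_right _ _
  have hP' : (0 : ℝ) < P0 := by exact_mod_cast hP
  rw [le_div_iff₀ (by linarith)] at h2
  linarith

/-- a sequence of integers in `[1, P0]` with `P0 + 1` terms is not strictly decreasing -/
theorem seq_eq (P0 : ℕ) (f : ℕ → ℕ) (h1 : ∀ i, 1 ≤ f i) (h2 : f 0 ≤ P0)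
    (h3 : ∀ i, f (i + 1) ≤ f i) : ∃ i, i < P0 ∧ f i = f (i + 1) := by
  by_contra hc
  push Not at hc
  have h4 : ∀ i, i ≤ P0 → f i + i ≤ f 0 := by
    intro i
    induction i with
    | zero => intro _; simp
    | succ i ih =>
      intro hi
      have h5 := ih (by omega)
      have h6 := hc i (by omega)
      have h7 := h3 i
      omega
  have := h4 P0 le_rfl
  have := h1 P0
  omega

end DEC1Aux

open DEC1Aux

theorem stmt_DEC1 : Stmt_DEC1.{u} := by
  intro C h hC hh
  set P0 : ℕ := ⌊3 * C⌋₊ with hP0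
  have hP1 : 1 ≤ P0 := by
    rw [hP0]
    apply Nat.le_floor
    push_cast
    linarith
  refine ⟨(range (P0 + 1)).image (gs h P0), ?_, ?_⟩
  · intro γ hγ
    rw [mem_image] at hγ
    obtain ⟨i, _, rfl⟩ := hγ
    exact ⟨gs_pos h hh P0 hP1 i, gs_le h hh P0 hP1 i⟩
  intro V _ G d hd hreg hsiz hne
  have hcV : d + 1 ≤ Fintype.card V := by
    obtain ⟨v⟩ := hne
    have h1 : nb G v ⊆ univ.erase v := by
      intro w hw
      rw [mem_nb] at hw
      rw [mem_erase]
      exact ⟨fun h' => G.loopless.irrefl v (h' ▸ hw), mem_univ _⟩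
    have h2 := card_le_card h1
    rw [hreg, card_erase_of_mem (mem_univ _), card_univ] at h2
    have h3 : 1 ≤ Fintype.card V := Fintype.card_pos_iff.2 ⟨v⟩
    omega
  have hdr : (0 : ℝ) < d := by exact_mod_cast hd
  have hmax := fun i : ℕ => exists_max G d hd (by omega) (2 * gs h P0 i * (d : ℝ) ^ 2)
  choose p po mt hval hbest using hmax
  -- number of positions
  have hp0 : ∀ i, 1 ≤ p i := by
    intro i
    obtain ⟨v⟩ := hne
    have := (po i v).2
    omega
  have hpC : ∀ i, (p i : ℝ) ≤ 3 * C := by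
    intro i
    have h1 := (hval i).card_le
    rw [Fintype.card_fin] at h1
    have h2 : (p i : ℝ) * d ≤ 3 * Fintype.card V := by exact_mod_cast h1
    have h3 : (p i : ℝ) * d ≤ (3 * C) * d := by
      calc (p i : ℝ) * d ≤ 3 * Fintype.card V := h2
        _ ≤ 3 * (C * d) := by linarith
        _ = (3 * C) * d := by ring
    exact le_of_mul_le_mul_right h3 hdr
  have hpP : ∀ i, p i ≤ P0 := fun i => Nat.le_floor (hpC i)
  have hcmp : ∀ i j, (bc G (po j) (mt j) : ℝ) + 2 * gs h P0 i * (d : ℝ) ^ 2 * p j ≤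
      bc G (po i) (mt i) + 2 * gs h P0 i * (d : ℝ) ^ 2 * p i := by
    intro i j
    have := hbest i (Fin (p j)) (po j) (mt j) (hval j)
    rw [Fintype.card_fin] at this
    exact this
  have hdec : ∀ i, p (i + 1) ≤ p i := by
    intro i
    by_contra hc
    push Not at hc
    have h1 := hcmp i (i + 1)
    have h2 := hcmp (i + 1) i
    have h3 := gs_lt h hh P0 hP1 i
    have h4 : (p i : ℝ) + 1 ≤ p (i + 1) := by exact_mod_cast hc
    have h5 : 0 < (gs h P0 i - gs h P0 (i + 1)) * (d : ℝ) ^ 2 :=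
      mul_pos (by linarith) (by positivity)
    nlinarith [mul_pos h5 (show (0 : ℝ) < p (i + 1) - p i by linarith)]
  obtain ⟨i, hi, hpi⟩ := seq_eq P0 p hp0 (hpP 0) hdec
  have hbc : (bc G (po i) (mt i) : ℝ) = bc G (po (i + 1)) (mt (i + 1)) := by
    have h1 := hcmp i (i + 1)
    have h2 := hcmp (i + 1) i
    have hpr : ((p (i + 1) : ℕ) : ℝ) = p i := by rw [hpi]
    rw [hpr] at h1 h2
    linarith
  have htot : ∑ v, (nb G v).card = Fintype.card V * d := by
    rw [sum_congr rfl (fun v _ => hreg v), sum_const, smul_eq_mul, card_univ]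
  -- value of one structure with respect to all others
  have hB : ∀ (ι : Type) [Fintype ι] (po' : V → ι) (mt' : ι → ι), Val d po' mt' →
      (bc G po' mt' : ℝ) + 2 * gs h P0 i * (d : ℝ) ^ 2 * Fintype.card ι ≤
        bc G (po i) (mt i) + 2 * gs h P0 i * (d : ℝ) ^ 2 * p i := fun ι _ po' mt' hv =>
    hbest i ι po' mt' hv
  have hpos : ∀ a, pos (po i) a = ps (po i) a := fun a => by
    ext v
    simp [pos, ps]
  have hgp := gs_pos h hh P0 hP1 i
  refine ⟨gs h P0 i, mem_image_of_mem _ (mem_range.2 (by omega)), p i, po i, mt i, ?_⟩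
  refine
    { pC := hpC i
      inv := (hval i).inv
      big := fun a => by
        rw [hpos]
        exact (hval i).big a
      sum := ?_
      mov := ?_
      cut := ?_
      nbi := ?_
      cu2 := ?_ }
  · -- sum
    have h1 : ∑ v, thd G (po i) (mt i) v = pr G (fun v w => ¬ po i w = mt i (po i v)) := by
      rw [pr_sum]
      refine sum_congr rfl (fun v _ => ?_)
      unfold thd
      congr 1
      ext w
      rw [mem_sdiff, hpos, mem_ps, mem_nbp, mem_nb]
    have h2 := pr_add_not G (fun v w => po i w = mt i (po i v))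
    rw [← h1, htot] at h2
    have h2' : (bc G (po i) (mt i) : ℝ) + ((∑ v, thd G (po i) (mt i) v : ℕ) : ℝ) =
        Fintype.card V * d := by exact_mod_cast h2
    have h3 := hbest (i + 1) (Fin 1) (fun _ => 0) id ⟨fun _ => rfl, fun a => by
      have : ps (fun _ : V => (0 : Fin 1)) a = univ := by
        ext v
        rw [mem_ps]
        simp [Subsingleton.elim a 0]
      rw [this, card_univ]
      omega⟩
    have h4 : bc G (fun _ : V => (0 : Fin 1)) id = Fintype.card V * d := by
      rw [← htot]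
      exact pr_true G _ (fun _ _ _ => rfl)
    have hpr : ((p (i + 1) : ℕ) : ℝ) = p i := by rw [hpi]
    rw [h4, ← hbc, hpr, Fintype.card_fin] at h3
    push_cast at h3
    have h5 := gs_h h P0 hP1 i
    have h6 : (p i : ℝ) ≤ P0 := by exact_mod_cast hpP i
    have h7 := gs_pos h hh P0 hP1 (i + 1)
    have h8 : 0 < (d : ℝ) ^ 2 := by positivity
    have h9 : 2 * gs h P0 (i + 1) * (d : ℝ) ^ 2 * p i ≤
        2 * gs h P0 (i + 1) * (d : ℝ) ^ 2 * P0 :=
      mul_le_mul_of_nonneg_left h6 (by positivity)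
    have h10 : 2 * gs h P0 (i + 1) * P0 * (d : ℝ) ^ 2 ≤ h (gs h P0 i) * (d : ℝ) ^ 2 :=
      mul_le_mul_of_nonneg_right h5 h8.le
    have h11 : 0 ≤ 2 * gs h P0 (i + 1) * (d : ℝ) ^ 2 := by positivity
    linarith
  · -- mov
    intro v a hv
    rw [hpos] at hv
    have h1 := mov_ineq G (hval i) v a
    have h2 := hB (Fin (p i)) (Function.update (po i) v a) (mt i) (mov_val (hval i) v a hv)
    rw [Fintype.card_fin] at h2
    have h3 : bc G (Function.update (po i) v a) (mt i) ≤ bc G (po i) (mt i) := by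
      have : (bc G (Function.update (po i) v a) (mt i) : ℝ) ≤ bc G (po i) (mt i) := by linarith
      exact_mod_cast this
    rw [hpos, hpos]
    omega
  · -- cut
    intro a ha S hS h1 h2
    rw [hpos] at hS h2 ⊢
    have h3 := cut_ineq G (hval i) a ha S hS
    have h4 := hB (Option (Fin (p i))) (sp1 (po i) a S) (Option.map (mt i))
      (sp1_val (hval i) a S hS h1 h2 _ (fun x => by
        rcases x with _ | b
        · rfl
        · simp [(hval i).inv]))
    rw [Fintype.card_option, Fintype.card_fin] at h4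
    push_cast at h4
    have h3' : (bc G (po i) (mt i) : ℝ) ≤ bc G (sp1 (po i) a S) (Option.map (mt i)) +
        2 * eb G S (ps (po i) a \ S) := by exact_mod_cast h3
    linarith
  · -- nbi
    intro a ha S hS h1 h2
    rw [hpos] at hS h2 ⊢
    have h3 := nbi_ineq G (hval i) a ha S hS
    have h4 := hB (Option (Fin (p i))) (sp1 (po i) a S) (mtx (mt i) a)
      (sp1_val (hval i) a S hS h1 h2 _ (mtx_inv (hval i) a ha))
    rw [Fintype.card_option, Fintype.card_fin] at h4
    push_cast at h4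
    have h3' : (bc G (po i) (mt i) : ℝ) ≤ bc G (sp1 (po i) a S) (mtx (mt i) a) +
        (eb G S S + eb G (ps (po i) a \ S) (ps (po i) a \ S)) := by exact_mod_cast h3
    linarith
  · -- cu2
    intro a ha S hS T hT h1 h2 h3 h4
    rw [hpos] at hS h2
    rw [hpos] at hT h4
    rw [hpos, hpos]
    have h5 := cu2_ineq G (hval i) a ha S T
    have h6 := hB (Fin (p i) ⊕ Bool) (sp2 (po i) a (mt i a) S T) (mt2 (mt i))
      (sp2_val (hval i) a (mt i a) (fun h' => ha h'.symm) S T hS hT h1 h2 h3 h4)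
    rw [Fintype.card_sum, Fintype.card_bool, Fintype.card_fin] at h6
    push_cast at h6
    have h5' : (bc G (po i) (mt i) : ℝ) ≤ bc G (sp2 (po i) a (mt i a) S T) (mt2 (mt i)) +
        2 * (eb G S (ps (po i) (mt i a) \ T) + eb G (ps (po i) a \ S) T) := by
      exact_mod_cast h5
    have h7 : 0 < gs h P0 i * (d : ℝ) ^ 2 := mul_pos hgp (by positivity)
    linarith

end Pool.Agent.Work.MP_db9399_da.helper55
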