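import Pool.Agent.Work.MP_db9399_da_helper55.DEC1

/-!
# MP_db9399, DENSE-ALL, block DEC2, part a: facts about the positions (helper55)
-/

set_option autoImplicit false

namespace Pool.Agent.Work.MP_db9399_da.helper55

open Finset Classical
open Pool.Agent.Work.MP_db9399_all (nb)

universe u

namespace DEC2Aux

open DEC1Aux (mem_nb eb_pr pr_swap)

section
variable {V : Type u} [Fintype V] {p : ℕ}

theorem mem_pos (po : V → Fin p) (a : Fin p) (v : V) : v ∈ pos po a ↔ po v = a := by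
  simp [pos]

theorem eb_symm (G : SimpleGraph V) (A B : Finset V) : eb G A B = eb G B A := by
  rw [eb_pr, eb_pr, ← pr_swap]
  congr 1
  ext v w
  exact and_comm

/-- the context -/
structure Ctx (C g γ ζ κ h0 : ℝ) (G : SimpleGraph V) (d : ℕ) (po : V → Fin p)
    (mt : Fin p → Fin p) : Prop where
  hC : 1 ≤ C
  hg0 : 0 < g
  hg1 : g ≤ 1 / 10
  hγ0 : 0 < γ
  hγ1 : γ ≤ 1 / 100
  hζ0 : 0 < ζ
  hζ1 : ζ ≤ 1 / 100
  hκ0 : 0 < κ
  hκζ : κ ≤ ζ / 32
  hκγ : C * κ ≤ γ / 32
  hh : h0 = κ * ζ / (32 * C)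
  hd : 18 * C ≤ κ * d
  hgd : 6 ≤ g * d
  P : PosP C γ h0 G d po mt
  reg : ∀ v, (nb G v).card = d
  siz : (Fintype.card V : ℝ) ≤ C * d

/-- vertices of large thin degree -/
noncomputable def Hs (ζ : ℝ) (G : SimpleGraph V) (d : ℕ) (po : V → Fin p) (mt : Fin p → Fin p) :
    Finset V := univ.filter (fun v => ζ / 2 * d < (thd G po mt v : ℝ))

theorem mem_Hs (ζ : ℝ) (G : SimpleGraph V) (d : ℕ) (po : V → Fin p) (mt : Fin p → Fin p) (v : V) :
    v ∈ Hs ζ G d po mt ↔ ζ / 2 * d < (thd G po mt v : ℝ) := by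
  simp [Hs]

section ctx
variable {C g γ ζ κ h0 : ℝ} {G : SimpleGraph V} {d : ℕ} {po : V → Fin p} {mt : Fin p → Fin p}
variable (c : Ctx C g γ ζ κ h0 G d po mt)
include c

theorem Ctx.dpos : (0 : ℝ) < d := by
  have h1 := c.hd
  have h2 := c.hC
  have h3 := c.hκ0
  by_contra h
  push Not at h
  nlinarith [mul_nonneg h3.le (neg_nonneg.2 h)]

theorem Ctx.dbig : (57600 : ℝ) ≤ d := by
  have h1 := c.hd
  have h2 := c.hC
  have h3 : κ ≤ 1 / 3200 := by linarith [c.hκζ, c.hζ1]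
  have h4 := c.dpos
  have h5 : κ * d ≤ 1 / 3200 * d := mul_le_mul_of_nonneg_right h3 h4.le
  linarith

theorem Ctx.h0pos : 0 < h0 := by
  rw [c.hh]
  have h1 := c.hC
  exact div_pos (mul_pos c.hκ0 c.hζ0) (by linarith)

theorem Ctx.h0le : h0 * C ≤ κ / 3200 := by
  rw [c.hh]
  have h1 : 0 < C := by linarith [c.hC]
  have h2 : κ * ζ / (32 * C) * C = κ * ζ / 32 := by
    field_simp
  rw [h2]
  have h3 : κ * ζ ≤ κ * (1 / 100) := mul_le_mul_of_nonneg_left c.hζ1 c.hκ0.le
  linarith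

theorem Ctx.h0le' : h0 ≤ κ / 3200 := by
  have h1 := c.h0le
  have h2 := c.h0pos
  have h3 := c.hC
  nlinarith

theorem Ctx.thd_add (v : V) : thd G po mt v + (nb G v ∩ pos po (mt (po v))).card = d := by
  unfold thd
  rw [← c.reg v]
  have h := card_sdiff_add_card_inter (nb G v) (pos po (mt (po v)))
  exact h

theorem Ctx.sumthd (A : Finset V) : ∑ v ∈ A, (thd G po mt v : ℝ) ≤ h0 * (d : ℝ) ^ 2 := by
  have h1 := c.P.sum
  have h2 : ∑ v ∈ A, thd G po mt v ≤ ∑ v, thd G po mt v := sum_le_sum_of_subset (subset_univ _)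
  have h3 : ((∑ v ∈ A, thd G po mt v : ℕ) : ℝ) ≤ ((∑ v, thd G po mt v : ℕ) : ℝ) := by
    exact_mod_cast h2
  push_cast at h3 h1 ⊢
  linarith

theorem Ctx.cardH : ((Hs ζ G d po mt).card : ℝ) * C ≤ κ / 16 * d := by
  have h1 := c.sumthd (Hs ζ G d po mt)
  have h2 : ((Hs ζ G d po mt).card : ℝ) * (ζ / 2 * d) ≤
      ∑ v ∈ Hs ζ G d po mt, (thd G po mt v : ℝ) := by
    rw [← nsmul_eq_mul, ← sum_const]
    exact sum_le_sum (fun v hv => ((mem_Hs ζ G d po mt v).1 hv).le)
  have hC : 0 < C := by linarith [c.hC]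
  have h3 : h0 * C = κ * ζ / 32 := by
    rw [c.hh]
    field_simp
  have h4 : (((Hs ζ G d po mt).card : ℝ) * C) * (ζ / 2 * d) ≤ (κ / 16 * d) * (ζ / 2 * d) := by
    calc (((Hs ζ G d po mt).card : ℝ) * C) * (ζ / 2 * d)
        = (((Hs ζ G d po mt).card : ℝ) * (ζ / 2 * d)) * C := by ring
      _ ≤ (h0 * (d : ℝ) ^ 2) * C := mul_le_mul_of_nonneg_right (h2.trans h1) hC.le
      _ = (h0 * C) * (d : ℝ) ^ 2 := by ring
      _ = (κ / 16 * d) * (ζ / 2 * d) := by rw [h3]; ring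
  exact le_of_mul_le_mul_right h4 (mul_pos (by linarith [c.hζ0]) c.dpos)

theorem Ctx.cardH' : ((Hs ζ G d po mt).card : ℝ) ≤ κ / 16 * d := by
  have h1 := c.cardH
  have h2 : ((Hs ζ G d po mt).card : ℝ) * 1 ≤ ((Hs ζ G d po mt).card : ℝ) * C :=
    mul_le_mul_of_nonneg_left c.hC (Nat.cast_nonneg _)
  linarith

theorem Ctx.posHalf (a : Fin p) : (d : ℝ) / 2 ≤ ((pos po a).card : ℝ) := by
  have h1 := c.cardH'
  have h2 : (d : ℝ) ≤ 3 * ((pos po (mt a)).card : ℝ) := by exact_mod_cast c.P.big (mt a)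
  have hd := c.dpos
  have h3 : κ / 16 * d ≤ d / 6 := by
    have : κ / 16 ≤ 1 / 6 := by linarith [c.hκζ, c.hζ1]
    nlinarith
  have h4 : ¬ pos po (mt a) ⊆ Hs ζ G d po mt := by
    intro h
    have h5 := card_le_card h
    have h6 : ((pos po (mt a)).card : ℝ) ≤ ((Hs ζ G d po mt).card : ℝ) := by exact_mod_cast h5
    linarith
  rw [not_subset] at h4
  obtain ⟨v, hv, hvH⟩ := h4
  rw [mem_pos] at hv
  rw [mem_Hs, not_lt] at hvH
  have h5 := c.thd_add v
  rw [hv, c.P.inv] at h5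
  have h6 : (nb G v ∩ pos po a).card ≤ (pos po a).card := card_le_card inter_subset_right
  have h7 : (thd G po mt v : ℝ) + ((nb G v ∩ pos po a).card : ℝ) = d := by exact_mod_cast h5
  have h8 : ((nb G v ∩ pos po a).card : ℝ) ≤ ((pos po a).card : ℝ) := by exact_mod_cast h6
  have h9 : ζ / 2 * d ≤ d / 2 := by nlinarith [c.hζ1]
  linarith

theorem Ctx.posL (a : Fin p) : (1 - 2 * h0) * d ≤ ((pos po a).card : ℝ) := by
  have h1 := c.posHalf (mt a)
  have h2 := c.sumthd (pos po (mt a))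
  have hd := c.dpos
  have hh := c.h0pos
  have h3 : ∃ v ∈ pos po (mt a), (thd G po mt v : ℝ) ≤ 2 * h0 * d := by
    by_contra hc
    push Not at hc
    have hne : (pos po (mt a)).Nonempty := by
      rw [← card_pos]
      have : (0 : ℝ) < ((pos po (mt a)).card : ℝ) := by linarith
      exact_mod_cast this
    have h4 : ∑ v ∈ pos po (mt a), 2 * h0 * (d : ℝ) < ∑ v ∈ pos po (mt a), (thd G po mt v : ℝ) :=
      sum_lt_sum_of_nonempty hne hc
    rw [sum_const, nsmul_eq_mul] at h4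
    have h5 : (d : ℝ) / 2 * (2 * h0 * d) ≤ ((pos po (mt a)).card : ℝ) * (2 * h0 * d) :=
      mul_le_mul_of_nonneg_right h1 (by positivity)
    nlinarith
  obtain ⟨v, hv, hvt⟩ := h3
  rw [mem_pos] at hv
  have h5 := c.thd_add v
  rw [hv, c.P.inv] at h5
  have h6 : (nb G v ∩ pos po a).card ≤ (pos po a).card := card_le_card inter_subset_right
  have h7 : (thd G po mt v : ℝ) + ((nb G v ∩ pos po a).card : ℝ) = d := by exact_mod_cast h5
  have h8 : ((nb G v ∩ pos po a).card : ℝ) ≤ ((pos po a).card : ℝ) := by exact_mod_cast h6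
  linarith

theorem Ctx.mov (v : V) (b : Fin p) : (nb G v ∩ pos po b).card + thd G po mt v ≤ d := by
  have h1 := c.posL (po v)
  have h2 : d + 3 ≤ 3 * (pos po (po v)).card := by
    have h3 : (d : ℝ) + 3 ≤ 3 * ((pos po (po v)).card : ℝ) := by
      have h4 := c.dbig
      have h5 : h0 ≤ 1 / 100 := by linarith [c.h0le', c.hκζ, c.hζ1]
      have h6 : 2 * h0 * d ≤ 2 * (1 / 100) * d :=
        mul_le_mul_of_nonneg_right (by linarith) c.dpos.le
      linarith
    exact_mod_cast h3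
  have h3 := c.P.mov v (mt b) h2
  rw [c.P.inv] at h3
  have h4 := c.thd_add v
  omega

omit c in
theorem nbo (v : V) (b : Fin p) (hb : b ≠ mt (po v)) :
    (nb G v ∩ pos po b).card ≤ thd G po mt v := by
  unfold thd
  apply card_le_card
  intro w hw
  rw [mem_inter, mem_pos] at hw
  rw [mem_sdiff, mem_pos]
  exact ⟨hw.1, fun h => hb (hw.2 ▸ h)⟩

theorem Ctx.ebpos (a : Fin p) :
    (eb G (pos po a) (pos po (mt a)) : ℝ) + ∑ v ∈ pos po a, (thd G po mt v : ℝ) =
      d * ((pos po a).card : ℝ) := by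
  unfold eb
  push_cast
  rw [← sum_add_distrib]
  have h : ∀ v ∈ pos po a, (((nb G v ∩ pos po (mt a)).card : ℝ) + (thd G po mt v : ℝ)) = d := by
    intro v hv
    rw [mem_pos] at hv
    have h5 := c.thd_add v
    rw [hv] at h5
    have h6 : (thd G po mt v : ℝ) + ((nb G v ∩ pos po (mt a)).card : ℝ) = d := by exact_mod_cast h5
    linarith
  rw [sum_congr rfl h, sum_const, nsmul_eq_mul]
  ring

theorem Ctx.pairs (a : Fin p) :
    ((pos po a).card : ℝ) ≤ ((pos po (mt a)).card : ℝ) + h0 * d := by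
  have h1 := c.ebpos a
  have h2 := c.ebpos (mt a)
  rw [c.P.inv, eb_symm] at h2
  have h3 := c.sumthd (pos po a)
  have h4 : (0 : ℝ) ≤ ∑ v ∈ pos po (mt a), (thd G po mt v : ℝ) :=
    sum_nonneg (fun v _ => Nat.cast_nonneg _)
  have h5 : ((pos po a).card : ℝ) * d ≤ (((pos po (mt a)).card : ℝ) + h0 * d) * d := by
    nlinarith
  exact le_of_mul_le_mul_right h5 c.dpos

end ctx

/-- the removed vertices outside `H` -/
structure XP (g ζ : ℝ) (G : SimpleGraph V) (d : ℕ) (po : V → Fin p) (mt : Fin p → Fin p)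
    (X : Fin p → Finset V) : Prop where
  sub : ∀ a, X a ⊆ pos po a \ Hs ζ G d po mt
  one : ∀ a, mt a = a → (1 + g) * d < ((pos po a \ Hs ζ G d po mt).card : ℝ) →
    (X a).card = (pos po a \ Hs ζ G d po mt).card % 4
  nul : ∀ a, mt a = a → ¬ (1 + g) * d < ((pos po a \ Hs ζ G d po mt).card : ℝ) → X a = ∅
  two : ∀ a, mt a ≠ a → (X a).card =
    (pos po a \ Hs ζ G d po mt).card - (pos po (mt a) \ Hs ζ G d po mt).card

theorem exists_XP (g ζ : ℝ) (G : SimpleGraph V) (d : ℕ) (po : V → Fin p) (mt : Fin p → Fin p) :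
    ∃ X, XP g ζ G d po mt X := by
  have h : ∀ a : Fin p, ∃ Y ⊆ pos po a \ Hs ζ G d po mt,
      (mt a = a → (1 + g) * d < ((pos po a \ Hs ζ G d po mt).card : ℝ) →
        Y.card = (pos po a \ Hs ζ G d po mt).card % 4) ∧
      (mt a = a → ¬ (1 + g) * d < ((pos po a \ Hs ζ G d po mt).card : ℝ) → Y = ∅) ∧
      (mt a ≠ a → Y.card =
        (pos po a \ Hs ζ G d po mt).card - (pos po (mt a) \ Hs ζ G d po mt).card) := by
    intro a
    by_cases h1 : mt a = a
    · by_cases h2 : (1 + g) * d < ((pos po a \ Hs ζ G d po mt).card : ℝ)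
      · obtain ⟨Y, hY, hc⟩ := exists_subset_card_eq
          (Nat.mod_le (pos po a \ Hs ζ G d po mt).card 4)
        exact ⟨Y, hY, fun _ _ => hc, fun _ h => absurd h2 h, fun h => absurd h1 h⟩
      · exact ⟨∅, empty_subset _, fun _ h => absurd h h2, fun _ _ => rfl, fun h => absurd h1 h⟩
    · obtain ⟨Y, hY, hc⟩ := exists_subset_card_eq
        (Nat.sub_le (pos po a \ Hs ζ G d po mt).card (pos po (mt a) \ Hs ζ G d po mt).card)
      exact ⟨Y, hY, fun h => absurd h h1, fun h => absurd h h1, fun _ => hc⟩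
  choose X h1 h2 h3 h4 using h
  exact ⟨X, h1, h2, h3, h4⟩

/-- the exceptional vertices -/
noncomputable def V0s (ζ : ℝ) (G : SimpleGraph V) (d : ℕ) (po : V → Fin p) (mt : Fin p → Fin p)
    (X : Fin p → Finset V) : Finset V := Hs ζ G d po mt ∪ univ.biUnion X

section xp
variable {C g γ ζ κ h0 : ℝ} {G : SimpleGraph V} {d : ℕ} {po : V → Fin p} {mt : Fin p → Fin p}
variable {X : Fin p → Finset V}

theorem mem_V0s (x : XP g ζ G d po mt X) (v : V) :
    v ∈ V0s ζ G d po mt X ↔ v ∈ Hs ζ G d po mt ∨ v ∈ X (po v) := by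
  unfold V0s
  rw [mem_union, mem_biUnion]
  constructor
  · rintro (h | ⟨a, _, h⟩)
    · exact Or.inl h
    · have h1 := x.sub a h
      rw [mem_sdiff, mem_pos] at h1
      rw [h1.1]
      exact Or.inr h
  · rintro (h | h)
    · exact Or.inl h
    · exact Or.inr ⟨_, mem_univ _, h⟩

theorem cardX (c : Ctx C g γ ζ κ h0 G d po mt) (x : XP g ζ G d po mt X) (a : Fin p) :
    ((X a).card : ℝ) * C ≤ κ / 8 * d + 3 * C := by
  have hC := c.hC
  have hd := c.dpos
  have hκ := c.hκ0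
  by_cases h1 : mt a = a
  · have h2 : (X a).card ≤ 3 := by
      by_cases h3 : (1 + g) * d < ((pos po a \ Hs ζ G d po mt).card : ℝ)
      · rw [x.one a h1 h3]
        omega
      · rw [x.nul a h1 h3]
        simp
    have h3 : ((X a).card : ℝ) ≤ 3 := by exact_mod_cast h2
    have h4 : 0 ≤ κ / 8 * d := by positivity
    have h5 : ((X a).card : ℝ) * C ≤ 3 * C := mul_le_mul_of_nonneg_right h3 (by linarith)
    linarith
  · have h2 := x.two a h1
    have h3 := c.pairs a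
    have h4 : (X a).card ≤ ((pos po a).card - (pos po (mt a)).card) + (Hs ζ G d po mt).card := by
      rw [h2]
      have h5 : (pos po a \ Hs ζ G d po mt).card ≤ (pos po a).card := card_le_card sdiff_subset
      have h6 := le_card_sdiff (Hs ζ G d po mt) (pos po (mt a))
      omega
    have h5 : (((pos po a).card - (pos po (mt a)).card : ℕ) : ℝ) ≤ h0 * d := by
      by_cases h6 : (pos po (mt a)).card ≤ (pos po a).card
      · rw [Nat.cast_sub h6]
        linarith
      · rw [Nat.sub_eq_zero_of_le (by omega)]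
        have := c.h0pos
        simp only [Nat.cast_zero]
        positivity
    have h6 : ((X a).card : ℝ) ≤ h0 * d + ((Hs ζ G d po mt).card : ℝ) := by
      have h7 : ((X a).card : ℝ) ≤ (((pos po a).card - (pos po (mt a)).card : ℕ) : ℝ) +
          ((Hs ζ G d po mt).card : ℝ) := by exact_mod_cast h4
      linarith
    have h7 : ((X a).card : ℝ) * C ≤ (h0 * d + ((Hs ζ G d po mt).card : ℝ)) * C :=
      mul_le_mul_of_nonneg_right h6 (by linarith)
    have h8 := c.cardH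
    have h9 := c.h0le
    have h10 : (h0 * C) * d ≤ (κ / 3200) * d := mul_le_mul_of_nonneg_right h9 hd.le
    have h11 : 0 ≤ κ * d := by positivity
    nlinarith

theorem cardV0 (c : Ctx C g γ ζ κ h0 G d po mt) (x : XP g ζ G d po mt X) :
    ((V0s ζ G d po mt X).card : ℝ) ≤ κ * d := by
  have hC := c.hC
  have h1 : (V0s ζ G d po mt X).card ≤ (Hs ζ G d po mt).card + ∑ a, (X a).card :=
    le_trans (card_union_le _ _) (Nat.add_le_add_left card_biUnion_le _)
  have h2 : ((V0s ζ G d po mt X).card : ℝ) ≤ ((Hs ζ G d po mt).card : ℝ) +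
      ∑ a, ((X a).card : ℝ) := by exact_mod_cast h1
  have h3 : (∑ a, ((X a).card : ℝ)) * C ≤ (p : ℝ) * (κ / 8 * d + 3 * C) := by
    rw [sum_mul]
    calc ∑ a, ((X a).card : ℝ) * C ≤ ∑ _a : Fin p, (κ / 8 * d + 3 * C) :=
          sum_le_sum (fun a _ => cardX c x a)
      _ = (p : ℝ) * (κ / 8 * d + 3 * C) := by
          rw [sum_const, card_univ, Fintype.card_fin, nsmul_eq_mul]
  have h4 : (p : ℝ) * (κ / 8 * d + 3 * C) ≤ 3 * C * (κ / 8 * d + 3 * C) := by
    apply mul_le_mul_of_nonneg_right c.P.pC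
    have := c.dpos
    have := c.hκ0
    positivity
  have h5 : ∑ a, ((X a).card : ℝ) ≤ 3 * (κ / 8 * d + 3 * C) := by
    have h6 : (∑ a, ((X a).card : ℝ)) * C ≤ (3 * (κ / 8 * d + 3 * C)) * C := by
      calc (∑ a, ((X a).card : ℝ)) * C ≤ 3 * C * (κ / 8 * d + 3 * C) := h3.trans h4
        _ = (3 * (κ / 8 * d + 3 * C)) * C := by ring
    exact le_of_mul_le_mul_right h6 (by linarith)
  have h6 := c.cardH'
  have h7 := c.hd
  have h8 : 0 ≤ κ * d := mul_nonneg c.hκ0.le c.dpos.le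
  linarith

/-- the kept vertices of a position -/
theorem card_W (x : XP g ζ G d po mt X) (a : Fin p) :
    (pos po a \ V0s ζ G d po mt X).card + (X a).card = (pos po a \ Hs ζ G d po mt).card := by
  have h1 : pos po a \ V0s ζ G d po mt X = (pos po a \ Hs ζ G d po mt) \ X a := by
    ext v
    rw [mem_sdiff, mem_sdiff, mem_sdiff, mem_V0s x, mem_pos]
    constructor
    · rintro ⟨h1, h2⟩
      rw [h1] at h2
      exact ⟨⟨h1, fun h => h2 (Or.inl h)⟩, fun h => h2 (Or.inr h)⟩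
    · rintro ⟨⟨h1, h2⟩, h3⟩
      rw [h1]
      exact ⟨rfl, fun h => h.elim h2 h3⟩
  rw [h1]
  exact card_sdiff_add_card_eq_card (x.sub a)

theorem card_Wge (c : Ctx C g γ ζ κ h0 G d po mt) (x : XP g ζ G d po mt X) (a : Fin p) :
    (1 - ζ / 16) * d ≤ ((pos po a \ V0s ζ G d po mt X).card : ℝ) := by
  have h1 := c.posL a
  have h2 := cardV0 c x
  have h3 := le_card_sdiff (V0s ζ G d po mt X) (pos po a)
  have h4 : ((pos po a).card : ℝ) ≤ ((pos po a \ V0s ζ G d po mt X).card : ℝ) +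
      ((V0s ζ G d po mt X).card : ℝ) := by
    have : (pos po a).card ≤ (pos po a \ V0s ζ G d po mt X).card + (V0s ζ G d po mt X).card := by
      omega
    exact_mod_cast this
  have h5 := c.h0le'
  have h6 : (2 * h0 + κ) * d ≤ (ζ / 16) * d := by
    apply mul_le_mul_of_nonneg_right _ c.dpos.le
    linarith [c.hκζ, c.hκ0]
  linarith

end xp

end

end DEC2Aux

end Pool.Agent.Work.MP_db9399_da.helper55
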